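import Pool.Agent.H30CG.Games
import Pool.Graph.R_seed8.Helper40.CliqueFam
import Pool.Graph.R_seed8.Y812.CG.Sum

/-!
The blocking criterion for the clique games.
-/

set_option autoImplicit false

namespace Pool.Agent.H30CG

open Finset Pool.Agent.Helper40.Game Pool.Agent.Helper40.SM Pool.Agent.Helper40.K9
  Pool.Agent.Helper40.CF

variable {N q : ℕ}

/-- the sum of the weights over the pairs of different overlapping complete subgraphs -/
def G (N q : ℕ) : ℕ := ∑ s ∈ Ico 2 q, Pool.Agent.Y812.CG.g N q s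

lemma sum_nb {S : Finset (Fin N)} (hS : S.card = q) :
    ∑ j ∈ nb (fam N q) edg S, (1 / 2 : ℝ) ^ (edg j \ edg S).card ≤
      (G N q : ℝ) / 2 ^ (q.choose 2) := by
  set w : ℕ → ℝ := fun s => if 2 ≤ s ∧ s < q then (2 : ℝ) ^ (s.choose 2) / 2 ^ (q.choose 2) else 0
    with hw
  have hw0 : ∀ s, 0 ≤ w s := by
    intro s
    rw [hw]
    simp only
    split_ifs <;> positivity
  have h1 : ∑ j ∈ nb (fam N q) edg S, (1 / 2 : ℝ) ^ (edg j \ edg S).card ≤
      ∑ S' ∈ fam N q, w (S ∩ S').card := by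
    have h2 : ∑ j ∈ nb (fam N q) edg S, (1 / 2 : ℝ) ^ (edg j \ edg S).card =
        ∑ j ∈ nb (fam N q) edg S, w (S ∩ j).card := by
      refine Finset.sum_congr rfl (fun j hj => ?_)
      unfold nb at hj
      rw [mem_filter, mem_fam] at hj
      obtain ⟨hjq, hne, hdis⟩ := hj
      have c1 : 2 ≤ (S ∩ j).card := by
        by_contra hlt
        apply hdis
        rw [Finset.disjoint_iff_inter_eq_empty, edg_inter, ← Finset.card_eq_zero, card_edg]
        exact Nat.choose_eq_zero_of_lt (by omega)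
      have c2 : (S ∩ j).card < q := by
        by_contra hge
        apply hne
        have e1 : (S ∩ j) = S := Finset.eq_of_subset_of_card_le inter_subset_left (by omega)
        have e2 : (S ∩ j) = j := Finset.eq_of_subset_of_card_le inter_subset_right (by omega)
        rw [← e2]; exact e1
      have e3 : (edg j \ edg S).card + ((S ∩ j).card).choose 2 = q.choose 2 := by
        have := Finset.card_sdiff_add_card_inter (edg j) (edg S)
        rw [Finset.inter_comm (edg j), edg_inter, card_edg, card_edg, hjq] at this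
        exact this
      rw [hw]
      simp only
      rw [if_pos ⟨c1, c2⟩, eq_div_iff (by positivity), ← e3, pow_add, ← mul_assoc, ← mul_pow]
      norm_num
    rw [h2]
    refine Finset.sum_le_sum_of_subset_of_nonneg ?_ (fun j _ _ => hw0 _)
    unfold nb
    exact filter_subset _ _
  refine h1.trans ((count_one hS w hw0).trans (le_of_eq ?_))
  unfold G
  rw [Nat.cast_sum, Finset.sum_div]
  have e : Ico 2 q = (range (q + 1)).filter (fun s => 2 ≤ s ∧ s < q) := by
    ext s
    rw [mem_Ico, mem_filter, mem_range]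
    constructor
    · intro h; exact ⟨by omega, h⟩
    · intro h; exact h.2
  rw [e, Finset.sum_filter]
  refine Finset.sum_congr rfl (fun s _ => ?_)
  rw [hw]
  simp only
  split_ifs with h
  · unfold Pool.Agent.Y812.CG.g
    push_cast
    ring
  · ring

/-- the initial value of the potential for complete subgraphs -/
theorem Phi_clique (h1 : 4 * (G N q : ℝ) ≤ 2 ^ (q.choose 2)) :
    Phi (fam N q) edg ∅ ∅ ≤
      32 * ((N.choose q : ℝ) / 2 ^ (q.choose 2) * ((G N q : ℝ) / 2 ^ (q.choose 2))) := by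
  have hT : (0 : ℝ) < 2 ^ (q.choose 2) := by positivity
  refine (Phi_init_le (fam N q) edg ?_).trans ?_
  · intro S hS
    rw [← Finset.mul_sum]
    have h := sum_nb (mem_fam.1 hS)
    have h2 : 4 * ((G N q : ℝ) / 2 ^ (q.choose 2)) ≤ 1 := by
      rw [mul_div_assoc', div_le_one hT]; exact h1
    linarith
  · refine mul_le_mul_of_nonneg_left ?_ (by norm_num)
    have h3 : ∀ S ∈ fam N q, ∑ j ∈ nb (fam N q) edg S, (1 / 2 : ℝ) ^ (edg S ∪ edg j).card ≤
        1 / 2 ^ (q.choose 2) * ((G N q : ℝ) / 2 ^ (q.choose 2)) := by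
      intro S hS
      have e : ∑ j ∈ nb (fam N q) edg S, (1 / 2 : ℝ) ^ (edg S ∪ edg j).card =
          (1 / 2) ^ (q.choose 2) *
            ∑ j ∈ nb (fam N q) edg S, (1 / 2 : ℝ) ^ (edg j \ edg S).card := by
        rw [Finset.mul_sum]
        refine Finset.sum_congr rfl (fun j _ => ?_)
        have e : (edg S ∪ edg j).card = q.choose 2 + (edg j \ edg S).card := by
          rw [← Finset.union_sdiff_self_eq_union, card_union_of_disjoint Finset.disjoint_sdiff,
            card_edg, mem_fam.1 hS]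
        rw [e, pow_add]
      rw [e, one_div_pow]
      exact mul_le_mul_of_nonneg_left (sum_nb (mem_fam.1 hS)) (by positivity)
    refine (Finset.sum_le_sum h3).trans (le_of_eq ?_)
    rw [Finset.sum_const, card_fam, nsmul_eq_mul]
    ring

/-- blocking strategies of Breaker and of Avoider -/
theorem blocks' [Inhabited (Sym2 (Fin N))] (hq : 3 ≤ q)
    (h1 : 4 * (G N q : ℝ) ≤ 2 ^ (q.choose 2))
    (h2 : 64 * ((N.choose q : ℝ) * (G N q : ℝ)) < (2 ^ (q.choose 2)) ^ 2) :
    (∃ σ : List (Sym2 (Fin N)) → Sym2 (Fin N), Legal (EE N) 1 σ ∧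
      ∀ h : List (Sym2 (Fin N)), h.Nodup → (∀ e ∈ h, e ∈ EE N) → (∀ e ∈ EE N, e ∈ h) →
      Cons σ 1 h → ∀ i ∈ fam N q, ¬ edg i ⊆ cls 0 h) ∧
    (∃ σ : List (Sym2 (Fin N)) → Sym2 (Fin N), Legal (EE N) 0 σ ∧
      ∀ h : List (Sym2 (Fin N)), h.Nodup → (∀ e ∈ h, e ∈ EE N) → (∀ e ∈ EE N, e ∈ h) →
      Cons σ 0 h → ∀ i ∈ fam N q, ¬ edg i ⊆ cls 0 h) := by
  have hT : (0 : ℝ) < 2 ^ (q.choose 2) := by positivity
  have h3 : ∀ i ∈ fam N q, 3 ≤ (edg i).card := by
    intro i hi
    rw [card_edg, mem_fam.1 hi]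
    calc 3 = Nat.choose 3 2 := by decide
      _ ≤ q.choose 2 := Nat.choose_le_choose 2 hq
  have hΦ : 2 * Phi (fam N q) edg ∅ ∅ < 1 := by
    have h := Phi_clique (N := N) (q := q) h1
    have e : (64 : ℝ) * ((N.choose q : ℝ) / 2 ^ (q.choose 2) * ((G N q : ℝ) / 2 ^ (q.choose 2))) <
        1 := by
      rw [div_mul_div_comm, mul_div_assoc', div_lt_one (by positivity), ← sq]
      exact h2
    linarith
  exact ⟨breaker_wins_cl (EE N) (fam N q) edg (fun i _ => edg_subset_EE i) h3 hΦ,
    avoider_wins_cl (EE N) (fam N q) edg (fun i _ => edg_subset_EE i) h3 hΦ⟩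

end Pool.Agent.H30CG
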