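import Pool.Graph.R_seed8.Y812.CG.Sum
import Pool.Agent.H30CG.Clique

/-!
A bound of the sum of the weights of the pairs of overlapping complete subgraphs.
-/

set_option autoImplicit false

namespace Pool.Agent.H30CG

open Finset Pool.Agent.Y812.CG

variable {N q : ℕ}

/-- the weights decrease and then increase on `3, ..., q - 2` -/
lemma g_le2 (hN : 2 * q + 100 ≤ N) (H1 : 16 * q * N ≤ 2 ^ q) {s : ℕ} (hs : 3 ≤ s)
    (hsq : s + 2 ≤ q) : g N q s ≤ g N q 3 + g N q (q - 2) := by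
  have up : ∀ t, t < q → P N q t → g N q t ≤ g N q (t + 1) := by
    intro t ht hP
    have h := g_succ (N := N) ht (by omega)
    have hpos : 0 < (t + 1) * (N - 2 * q + t + 1) := by positivity
    refine Nat.le_of_mul_le_mul_right ?_ hpos
    rw [h]
    exact Nat.mul_le_mul_left _ hP
  have down : ∀ t, t < q → ¬ P N q t → g N q (t + 1) ≤ g N q t := by
    intro t ht hP
    have h := g_succ (N := N) ht (by omega)
    have hpos : 0 < (t + 1) * (N - 2 * q + t + 1) := by positivity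
    refine Nat.le_of_mul_le_mul_right ?_ hpos
    rw [h]
    unfold P at hP
    exact Nat.mul_le_mul_left _ (not_le.1 hP).le
  by_cases hP : P N q s
  · have hU := P_up hs hN H1 hP
    have : ∀ t, s ≤ t → t ≤ q → g N q s ≤ g N q t := by
      intro t hst
      induction t, hst using Nat.le_induction with
      | base => intro _; exact le_rfl
      | succ t hst ih =>
        intro ht
        exact (ih (by omega)).trans (up t (by omega) (hU t hst (by omega)))
    exact (this (q - 2) (by omega) (by omega)).trans (Nat.le_add_left _ _)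
  · have hD : ∀ t, 3 ≤ t → t ≤ s → ¬ P N q t := fun t h3 hts hPt =>
      hP (P_up h3 hN H1 hPt s hts (by omega))
    have : ∀ t, 3 ≤ t → t ≤ s → g N q t ≤ g N q 3 := by
      intro t h3
      induction t, h3 using Nat.le_induction with
      | base => intro _; exact le_rfl
      | succ t h3 ih =>
        intro ht
        exact (down t (by omega) (hD t h3 (by omega))).trans (ih (by omega))
    exact (this s hs le_rfl).trans (Nat.le_add_right _ _)

lemma G_le (hq : 5 ≤ q) (hN : 2 * q + 100 ≤ N) (H1 : 16 * q * N ≤ 2 ^ q) :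
    G N q ≤ g N q 2 + g N q (q - 1) + q * (g N q 3 + g N q (q - 2)) := by
  unfold G
  have hsub : Ico 2 q ⊆ insert 2 (insert (q - 1) (Ico 3 (q - 1))) := by
    intro s hs
    rw [mem_Ico] at hs
    rw [mem_insert, mem_insert, mem_Ico]
    omega
  have h1 : ∑ s ∈ Ico 3 (q - 1), g N q s ≤ q * (g N q 3 + g N q (q - 2)) := by
    have : ∑ s ∈ Ico 3 (q - 1), g N q s ≤ ∑ s ∈ Ico 3 (q - 1), (g N q 3 + g N q (q - 2)) := by
      refine Finset.sum_le_sum (fun s hs => ?_)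
      rw [mem_Ico] at hs
      exact g_le2 hN H1 hs.1 (by omega)
    refine this.trans ?_
    rw [Finset.sum_const, smul_eq_mul, Nat.card_Ico]
    exact Nat.mul_le_mul_right _ (by omega)
  refine (Finset.sum_le_sum_of_subset hsub).trans ?_
  rw [Finset.sum_insert, Finset.sum_insert]
  · omega
  · rw [mem_Ico]; omega
  · rw [mem_insert, mem_Ico]; omega

lemma g2_le (hq : 3 ≤ q) (hN : 2 * q + 100 ≤ N) :
    g N q 2 * N ^ 2 ≤ 2 * q ^ 4 * N.choose q := by
  have hc := g_choose (N := N) (q := q) (s := 2) (by omega) (by omega)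
  have e8 : (2 : ℕ) ^ (Nat.choose 2 2) = 2 := by norm_num
  rw [e8] at hc
  have hq2 := choose2_le q
  have hN2 := choose2_ge (N := N) (by omega)
  have k1 : 4 * q.choose 2 ^ 2 ≤ q ^ 4 := by
    calc 4 * q.choose 2 ^ 2 = (2 * q.choose 2) ^ 2 := by ring
      _ ≤ (q ^ 2) ^ 2 := Nat.pow_le_pow_left hq2 2
      _ = q ^ 4 := by ring
  calc g N q 2 * N ^ 2 ≤ g N q 2 * (4 * N.choose 2) := Nat.mul_le_mul_left _ hN2
    _ = 4 * (g N q 2 * N.choose 2) := by ring
    _ ≤ 4 * (2 * q.choose 2 ^ 2 * N.choose q) := Nat.mul_le_mul_left _ hc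
    _ = 2 * (4 * q.choose 2 ^ 2) * N.choose q := by ring
    _ ≤ 2 * q ^ 4 * N.choose q := Nat.mul_le_mul_right _ (Nat.mul_le_mul_left _ k1)

lemma g3_le (hq : 3 ≤ q) (hN : 2 * q + 100 ≤ N) :
    g N q 3 * N ^ 3 ≤ 3 * q ^ 6 * N.choose q := by
  have hc := g_choose (N := N) (q := q) (s := 3) (by omega) (by omega)
  have e8 : (2 : ℕ) ^ (Nat.choose 3 2) = 8 := by norm_num [Nat.choose]
  rw [e8] at hc
  have hq3 := choose3_le q
  have hN3 := choose3_ge (N := N) (by omega)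
  have k1 : 36 * q.choose 3 ^ 2 ≤ q ^ 6 := by
    calc 36 * q.choose 3 ^ 2 = (6 * q.choose 3) ^ 2 := by ring
      _ ≤ (q ^ 3) ^ 2 := Nat.pow_le_pow_left hq3 2
      _ = q ^ 6 := by ring
  calc g N q 3 * N ^ 3 ≤ g N q 3 * (12 * N.choose 3) := Nat.mul_le_mul_left _ hN3
    _ = 12 * (g N q 3 * N.choose 3) := by ring
    _ ≤ 12 * (8 * q.choose 3 ^ 2 * N.choose q) := Nat.mul_le_mul_left _ hc
    _ ≤ 3 * (36 * q.choose 3 ^ 2) * N.choose q := by
        have : 12 * (8 * q.choose 3 ^ 2 * N.choose q) = 96 * (q.choose 3 ^ 2 * N.choose q) := by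
          ring
        rw [this]
        have : 3 * (36 * q.choose 3 ^ 2) * N.choose q = 108 * (q.choose 3 ^ 2 * N.choose q) := by
          ring
        rw [this]
        exact Nat.mul_le_mul_right _ (by norm_num)
    _ ≤ 3 * q ^ 6 * N.choose q := Nat.mul_le_mul_right _ (Nat.mul_le_mul_left _ k1)

lemma gq1_le (hq : 3 ≤ q) : g N q (q - 1) * 2 ^ q ≤ 2 * q * N * 2 ^ (q.choose 2) := by
  obtain ⟨k, rfl⟩ : ∃ k, q = k + 1 := ⟨q - 1, by omega⟩
  have e1 : k + 1 - 1 = k := by omega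
  have e2 : k + 1 - k = 1 := by omega
  have e4 : (k + 1).choose 2 = k.choose 2 + k := by
    rw [Nat.choose_succ_succ' k 1, Nat.choose_one_right]; ring
  unfold g
  rw [e1, e2, Nat.choose_one_right, Nat.choose_succ_self_right, e4]
  calc (k + 1) * (N - (k + 1)) * 2 ^ k.choose 2 * 2 ^ (k + 1)
      = 2 * (k + 1) * (N - (k + 1)) * 2 ^ (k.choose 2 + k) := by rw [pow_add, pow_succ]; ring
    _ ≤ 2 * (k + 1) * N * 2 ^ (k.choose 2 + k) :=
        Nat.mul_le_mul_right _ (Nat.mul_le_mul_left _ (Nat.sub_le _ _))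

lemma gq2_le (hq : 3 ≤ q) : g N q (q - 2) * 4 ^ q ≤ 2 * q ^ 2 * N ^ 2 * 2 ^ (q.choose 2) := by
  obtain ⟨k, rfl⟩ : ∃ k, q = k + 2 := ⟨q - 2, by omega⟩
  have e1 : k + 2 - 2 = k := by omega
  have e2 : k + 2 - k = 2 := by omega
  have e4 : (k + 2).choose 2 = k.choose 2 + k + (k + 1) := by
    rw [Nat.choose_succ_succ' (k + 1) 1, Nat.choose_one_right, Nat.choose_succ_succ' k 1,
      Nat.choose_one_right]
    ring
  have e5 : (k + 2).choose k = (k + 2).choose 2 := by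
    rw [← Nat.choose_symm_of_eq_add (show k + 2 = k + 2 from rfl)]
  have c1 := choose2_le (k + 2)
  have c2 := choose2_le (N - (k + 2))
  have c3 : (N - (k + 2)) ^ 2 ≤ N ^ 2 := Nat.pow_le_pow_left (Nat.sub_le _ _) 2
  unfold g
  rw [e1, e2, e5, show (4 : ℕ) = 2 ^ 2 by norm_num, ← pow_mul]
  rw [show 2 * (k + 2) = k + (k + 1) + 3 by ring, pow_add 2 _ 3]
  have e6 : 2 ^ k.choose 2 * 2 ^ (k + (k + 1)) = 2 ^ (k + 2).choose 2 := by
    rw [e4, ← pow_add, add_assoc]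
  calc (k + 2).choose 2 * (N - (k + 2)).choose 2 * 2 ^ k.choose 2 * (2 ^ (k + (k + 1)) * 2 ^ 3)
      = 2 * ((2 * (k + 2).choose 2) * (2 * (N - (k + 2)).choose 2)) *
        (2 ^ k.choose 2 * 2 ^ (k + (k + 1))) := by ring
    _ = 2 * ((2 * (k + 2).choose 2) * (2 * (N - (k + 2)).choose 2)) * 2 ^ (k + 2).choose 2 := by
        rw [e6]
    _ ≤ 2 * ((k + 2) ^ 2 * N ^ 2) * 2 ^ (k + 2).choose 2 :=
        Nat.mul_le_mul_right _ (Nat.mul_le_mul_left _ (Nat.mul_le_mul c1 (c2.trans c3)))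
    _ = _ := by ring

/-- the two hypotheses of the blocking criterion -/
theorem crit {Z : ℝ} (hq : 5 ≤ q) (hN : 2 * q + 100 ≤ N) (H1 : 16 * q * N ≤ 2 ^ q) (hZ : 1 ≤ Z)
    (hS : (N.choose q : ℝ) ≤ Z * 2 ^ (q.choose 2))
    (A1 : 1024 * (q : ℝ) ^ 4 * Z ^ 2 ≤ N ^ 2) (A2 : 256 * (q : ℝ) * N * Z ≤ 2 ^ q)
    (A3 : 1536 * (q : ℝ) ^ 7 * Z ^ 2 ≤ N ^ 3) (A4 : 1024 * (q : ℝ) ^ 3 * N ^ 2 * Z ≤ 4 ^ q) :
    4 * (G N q : ℝ) ≤ 2 ^ (q.choose 2) ∧
      64 * ((N.choose q : ℝ) * (G N q : ℝ)) < (2 ^ (q.choose 2)) ^ 2 := by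
  have hT : (0 : ℝ) < 2 ^ (q.choose 2) := by positivity
  have hN0 : (0 : ℝ) < N := by exact_mod_cast (show 0 < N by omega)
  have hq0 : (0 : ℝ) < q := by exact_mod_cast (show 0 < q by omega)
  have hZ0 : 0 < Z := by linarith
  have hG : (G N q : ℝ) ≤ g N q 2 + g N q (q - 1) + q * (g N q 3 + g N q (q - 2)) := by
    exact_mod_cast G_le hq hN H1
  set T : ℝ := 2 ^ (q.choose 2) with hTd
  have b1 : (g N q 2 : ℝ) * N ^ 2 ≤ 2 * q ^ 4 * N.choose q := by
    exact_mod_cast g2_le (by omega) hN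
  have b2 : (g N q (q - 1) : ℝ) * 2 ^ q ≤ 2 * q * N * T := by
    rw [hTd]; exact_mod_cast gq1_le (N := N) (q := q) (by omega)
  have b3 : (g N q 3 : ℝ) * N ^ 3 ≤ 3 * q ^ 6 * N.choose q := by
    exact_mod_cast g3_le (by omega) hN
  have b4 : (g N q (q - 2) : ℝ) * 4 ^ q ≤ 2 * q ^ 2 * N ^ 2 * T := by
    rw [hTd]; exact_mod_cast gq2_le (N := N) (q := q) (by omega)
  have d1 : Z * (g N q 2 : ℝ) ≤ T / 512 := by
    have h : (Z * (g N q 2 : ℝ)) * N ^ 2 ≤ (T / 512) * N ^ 2 := by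
      calc (Z * (g N q 2 : ℝ)) * N ^ 2 = Z * ((g N q 2 : ℝ) * N ^ 2) := by ring
        _ ≤ Z * (2 * q ^ 4 * N.choose q) := mul_le_mul_of_nonneg_left b1 hZ0.le
        _ ≤ Z * (2 * q ^ 4 * (Z * T)) := by
            refine mul_le_mul_of_nonneg_left ?_ hZ0.le
            exact mul_le_mul_of_nonneg_left hS (by positivity)
        _ = (1024 * (q : ℝ) ^ 4 * Z ^ 2) * (T / 512) := by ring
        _ ≤ N ^ 2 * (T / 512) := mul_le_mul_of_nonneg_right A1 (by positivity)
        _ = _ := by ring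
    exact le_of_mul_le_mul_right h (by positivity)
  have d2 : Z * (g N q (q - 1) : ℝ) ≤ T / 128 := by
    have h : (Z * (g N q (q - 1) : ℝ)) * 2 ^ q ≤ (T / 128) * 2 ^ q := by
      calc (Z * (g N q (q - 1) : ℝ)) * 2 ^ q = Z * ((g N q (q - 1) : ℝ) * 2 ^ q) := by ring
        _ ≤ Z * (2 * q * N * T) := mul_le_mul_of_nonneg_left b2 hZ0.le
        _ = (256 * (q : ℝ) * N * Z) * (T / 128) := by ring
        _ ≤ 2 ^ q * (T / 128) := mul_le_mul_of_nonneg_right A2 (by positivity)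
        _ = _ := by ring
    exact le_of_mul_le_mul_right h (by positivity)
  have d3 : Z * (q * (g N q 3 : ℝ)) ≤ T / 512 := by
    have h : (Z * (q * (g N q 3 : ℝ))) * N ^ 3 ≤ (T / 512) * N ^ 3 := by
      calc (Z * (q * (g N q 3 : ℝ))) * N ^ 3 = Z * (q * ((g N q 3 : ℝ) * N ^ 3)) := by ring
        _ ≤ Z * (q * (3 * q ^ 6 * N.choose q)) := by
            refine mul_le_mul_of_nonneg_left ?_ hZ0.le
            exact mul_le_mul_of_nonneg_left b3 hq0.le
        _ ≤ Z * (q * (3 * q ^ 6 * (Z * T))) := by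
            refine mul_le_mul_of_nonneg_left ?_ hZ0.le
            refine mul_le_mul_of_nonneg_left ?_ hq0.le
            exact mul_le_mul_of_nonneg_left hS (by positivity)
        _ = (1536 * (q : ℝ) ^ 7 * Z ^ 2) * (T / 512) := by ring
        _ ≤ N ^ 3 * (T / 512) := mul_le_mul_of_nonneg_right A3 (by positivity)
        _ = _ := by ring
    exact le_of_mul_le_mul_right h (by positivity)
  have d4 : Z * (q * (g N q (q - 2) : ℝ)) ≤ T / 512 := by
    have h : (Z * (q * (g N q (q - 2) : ℝ))) * 4 ^ q ≤ (T / 512) * 4 ^ q := by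
      calc (Z * (q * (g N q (q - 2) : ℝ))) * 4 ^ q =
            Z * (q * ((g N q (q - 2) : ℝ) * 4 ^ q)) := by ring
        _ ≤ Z * (q * (2 * q ^ 2 * N ^ 2 * T)) := by
            refine mul_le_mul_of_nonneg_left ?_ hZ0.le
            exact mul_le_mul_of_nonneg_left b4 hq0.le
        _ = (1024 * (q : ℝ) ^ 3 * N ^ 2 * Z) * (T / 512) := by ring
        _ ≤ 4 ^ q * (T / 512) := mul_le_mul_of_nonneg_right A4 (by positivity)
        _ = _ := by ring
    exact le_of_mul_le_mul_right h (by positivity)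
  have hZG : Z * (G N q : ℝ) ≤ 7 * T / 512 := by
    calc Z * (G N q : ℝ) ≤ Z * (g N q 2 + g N q (q - 1) + q * (g N q 3 + g N q (q - 2))) :=
          mul_le_mul_of_nonneg_left hG hZ0.le
      _ = Z * (g N q 2 : ℝ) + Z * (g N q (q - 1) : ℝ) + Z * (q * (g N q 3 : ℝ)) +
          Z * (q * (g N q (q - 2) : ℝ)) := by ring
      _ ≤ T / 512 + T / 128 + T / 512 + T / 512 := by linarith
      _ = _ := by ring
  have hG0 : (0 : ℝ) ≤ (G N q : ℝ) := Nat.cast_nonneg _
  have hGZ : (G N q : ℝ) ≤ Z * (G N q : ℝ) := le_mul_of_one_le_left hG0 hZ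
  refine ⟨by linarith, ?_⟩
  calc 64 * ((N.choose q : ℝ) * (G N q : ℝ)) ≤ 64 * ((Z * T) * (G N q : ℝ)) := by
        refine mul_le_mul_of_nonneg_left ?_ (by norm_num)
        exact mul_le_mul_of_nonneg_right hS hG0
    _ = 64 * T * (Z * (G N q : ℝ)) := by ring
    _ ≤ 64 * T * (7 * T / 512) := mul_le_mul_of_nonneg_left hZG (by positivity)
    _ = 7 / 8 * T ^ 2 := by ring
    _ < T ^ 2 := by nlinarith [sq_pos_of_pos hT]

end Pool.Agent.H30CG
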