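import Pool.Agent.H30CG.Inv

/-!
The blocking strategies: the greedy strategy for the potential of the clusters outside the emergency
pairs, and the answer in the same pair inside them.
-/

set_option autoImplicit false
set_option linter.unusedSectionVars false

namespace Pool.Agent.H30CG

open Finset Pool.Agent.Helper40.Game Pool.Agent.Helper40.SM

variable {β : Type*} [DecidableEq β] {K : Type*} [DecidableEq K]

variable {E : Finset β} {F : Finset K} {A : K → Finset β} {X Y : Finset β}
  {Q : Finset (Finset β)}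

lemma partner {q : Finset β} (hq : q.card = 2) {x : β} (hx : x ∈ q) : ∃ y ∈ q, y ≠ x ∧
    ∀ z ∈ q, z ≠ y → z = x := by
  obtain ⟨a, b, hab, rfl⟩ := Finset.card_eq_two.1 hq
  rw [mem_insert, mem_singleton] at hx
  rcases hx with rfl | rfl
  · refine ⟨b, by simp, hab.symm, ?_⟩
    intro z hz hzb
    rw [mem_insert, mem_singleton] at hz
    exact hz.resolve_right hzb
  · refine ⟨a, by simp, hab, ?_⟩
    intro z hz hza
    rw [mem_insert, mem_singleton] at hz
    exact hz.resolve_left hza

/-- status of a pair in the game of Breaker -/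
def StB (X Y q : Finset β) : Prop := (Disjoint q X ∧ Disjoint q Y) ∨ (q ∩ Y).Nonempty

lemma StB.insX {X Y q : Finset β} (h : StB X Y q) {x : β} (hx : x ∉ q) : StB (insert x X) Y q := by
  rcases h with h | h
  · left
    rw [Finset.disjoint_insert_right]
    exact ⟨⟨hx, h.1⟩, h.2⟩
  · exact Or.inr h

lemma StB.insY {X Y q : Finset β} (h : StB X Y q) {x : β} : StB X (insert x Y) q := by
  by_cases hx : x ∈ q
  · right
    exact ⟨x, by simp [hx]⟩
  · rcases h with h | h
    · left
      rw [Finset.disjoint_insert_right]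
      exact ⟨h.1, hx, h.2⟩
    · right
      exact h.mono (Finset.inter_subset_inter_left (Finset.subset_insert x Y))

lemma card_free_left {X Y : Finset β} {x : β} {n : ℕ} (hn : (E \ (X ∪ Y)).card = n + 1)
    (hx : x ∈ E \ (X ∪ Y)) : (E \ (insert x X ∪ Y)).card = n := by
  rw [free_insert_left, Finset.card_erase_of_mem hx, hn]; rfl

lemma card_free_right {X Y : Finset β} {x : β} {n : ℕ} (hn : (E \ (X ∪ Y)).card = n + 1)
    (hx : x ∈ E \ (X ∪ Y)) : (E \ (X ∪ insert x Y)).card = n := by
  rw [free_insert_right, Finset.card_erase_of_mem hx, hn]; rfl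

/-- the game of Breaker -/
theorem breaker_force (hA : ∀ i ∈ F, A i ⊆ E) : ∀ (n : ℕ) (X Y : Finset β)
    (Q : Finset (Finset β)), (E \ (X ∪ Y)).card = n → Inv E F A X Y Q → (∀ q ∈ Q, StB X Y q) →
    Phi F A (X \ R Q) (Y \ R Q) < 1 →
    Force E (fun S => ∀ i ∈ F, ¬ A i ⊆ S) true X Y ∧
    ((∀ x ∈ E \ (X ∪ Y), x ∉ R Q → Phi F A (insert x (X \ R Q)) (Y \ R Q) < 1) →
      Force E (fun S => ∀ i ∈ F, ¬ A i ⊆ S) false X Y) := by
  intro n
  induction n using Nat.strong_induction_on with
  | _ n ih =>
  intro X Y Q hn hI hS hΦ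
  rcases Nat.eq_zero_or_pos n with h0 | hpos
  · -- the end of the game
    subst h0
    rw [Finset.card_eq_zero] at hn
    have hall : E ⊆ X ∪ Y := Finset.sdiff_eq_empty_iff_subset.1 hn
    have hq : ∀ q ∈ Q, (q ∩ Y).Nonempty := by
      intro q hq
      rcases hS q hq with ⟨h1, h2⟩ | h
      · exfalso
        have hc := hI.hcard q hq
        have : q = ∅ := by
          rw [Finset.eq_empty_iff_forall_notMem]
          intro z hz
          have := hall (hI.hQE q hq hz)
          rw [mem_union] at this
          rcases this with h3 | h3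
          · exact Finset.disjoint_left.1 h1 hz h3
          · exact Finset.disjoint_left.1 h2 hz h3
        rw [this] at hc
        simp at hc
      · exact h
    have hT : ∀ i ∈ F, ¬ A i ⊆ X := by
      intro i hi hsub
      exact hI.final hA hall hq hΦ i hi (hI.hXY.mono_left hsub)
    exact ⟨Force.done _ _ _ hn hT, fun _ => Force.done _ _ _ hn hT⟩
  obtain ⟨m, rfl⟩ : ∃ m, n = m + 1 := ⟨n - 1, by omega⟩
  have hne : (E \ (X ∪ Y)).Nonempty := by rw [← Finset.card_pos]; omega
  constructor
  · -- Breaker moves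
    by_cases hbig : ((E \ (X ∪ Y)) \ R Q).Nonempty
    · obtain ⟨y, hy, hmin⟩ := Finset.exists_min_image _
        (fun y => Phi F A (X \ R Q) (insert y (Y \ R Q))) hbig
      rw [mem_sdiff] at hy
      have hyE := hy.1
      rw [mem_sdiff, mem_union, not_or] at hyE
      refine Force.mine X Y y hy.1 ?_
      have e : insert y Y \ R Q = insert y (Y \ R Q) := sdiff_insert_of_notMem hy.2
      refine (ih m (by omega) X (insert y Y) Q (card_free_right hn hy.1)
        (hI.insY hyE.1 hyE.2.1) (fun q hq => (hS q hq).insY) ?_).2 ?_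
      · rw [e]
        exact lt_of_le_of_lt (Phi_insert_B_le F A) hΦ
      · intro x hx hxR
        rw [e]
        rw [free_insert_right, mem_erase] at hx
        have hxE := hx.2
        rw [mem_sdiff, mem_union, not_or] at hxE
        refine lt_of_le_of_lt (round_second (x := y) (y := x) hx.1.symm ?_ ?_ ?_ ?_ ?_) hΦ
        · exact fun h => hyE.2.1 (mem_sdiff.1 h).1
        · exact fun h => hyE.2.2 (mem_sdiff.1 h).1
        · exact fun h => hxE.2.1 (mem_sdiff.1 h).1
        · exact fun h => hxE.2.2 (mem_sdiff.1 h).1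
        · exact hmin x (mem_sdiff.2 ⟨hx.2, hxR⟩)
    · rw [Finset.not_nonempty_iff_eq_empty, Finset.sdiff_eq_empty_iff_subset] at hbig
      obtain ⟨y, hy⟩ := hne
      have hyE := hy
      rw [mem_sdiff, mem_union, not_or] at hyE
      refine Force.mine X Y y hy ?_
      have e : insert y Y \ R Q = Y \ R Q := sdiff_insert_of_mem (hbig hy)
      refine (ih m (by omega) X (insert y Y) Q (card_free_right hn hy)
        (hI.insY hyE.1 hyE.2.1) (fun q hq => (hS q hq).insY) ?_).2 ?_
      · rw [e]; exact hΦ
      · intro x hx hxR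
        rw [free_insert_right, mem_erase] at hx
        exact absurd (hbig hx.2) hxR
  · -- the occupant moves
    intro hx1
    refine Force.his X Y hne ?_
    intro x hx
    have hxE := hx
    rw [mem_sdiff, mem_union, not_or] at hxE
    by_cases hxR : x ∈ R Q
    · obtain ⟨q, hq, hxq⟩ := mem_R.1 hxR
      have eX : insert x X \ R Q = X \ R Q := sdiff_insert_of_mem hxR
      have hothers : ∀ q' ∈ Q, q' ≠ q → x ∉ q' := by
        intro q' hq' hne' hxq'
        exact Finset.disjoint_left.1 (hI.hdisj q' hq' q hq hne') hxq' hxq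
      rcases hS q hq with ⟨h1, h2⟩ | hb
      · -- an open pair
        obtain ⟨y, hyq, hyx, _⟩ := partner (hI.hcard q hq) hxq
        have hyE : y ∈ E := hI.hQE q hq hyq
        have hyX : y ∉ X := Finset.disjoint_left.1 h1 hyq
        have hyY : y ∉ Y := Finset.disjoint_left.1 h2 hyq
        have hyf : y ∈ E \ (insert x X ∪ Y) := by
          rw [mem_sdiff, mem_union, mem_insert]
          tauto
        have hc1 := card_free_left hn hx
        have hm : 0 < m := by
          rw [← hc1]
          exact Finset.card_pos.2 ⟨y, hyf⟩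
        obtain ⟨k, rfl⟩ : ∃ k, m = k + 1 := ⟨m - 1, by omega⟩
        have eY : insert y Y \ R Q = Y \ R Q := sdiff_insert_of_mem (sub_R hq hyq)
        refine Force.mine _ _ y hyf ?_
        refine (ih k (by omega) (insert x X) (insert y Y) Q (card_free_right hc1 hyf)
          ((hI.insX hxE.1 hxE.2.2 hxR).insY hyE (by rw [mem_insert]; tauto)) ?_ ?_).2 ?_
        · intro q' hq'
          by_cases he : q' = q
          · subst he
            right
            exact ⟨y, by simp [hyq]⟩
          · exact ((hS q' hq').insX (hothers q' hq' he)).insY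
        · rw [eX, eY]; exact hΦ
        · intro z hz hzR
          rw [eX, eY]
          refine hx1 z ?_ hzR
          rw [free_insert_right, mem_erase, free_insert_left, mem_erase] at hz
          exact hz.2.2
      · refine (ih m (by omega) (insert x X) Y Q (card_free_left hn hx)
          (hI.insX hxE.1 hxE.2.2 hxR) ?_ ?_).1
        · intro q' hq'
          by_cases he : q' = q
          · subst he
            exact Or.inr hb
          · exact (hS q' hq').insX (hothers q' hq' he)
        · rw [eX]; exact hΦ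
    · obtain ⟨Q', hQQ, hI', hnew, eM, eN⟩ := hI.declare hA hxE.1 hxE.2.2 hxR (hx1 x hx hxR)
      refine (ih m (by omega) (insert x X) Y Q' (card_free_left hn hx) hI' ?_ ?_).1
      · intro q hq
        by_cases hqQ : q ∈ Q
        · exact (hS q hqQ).insX (fun h => hxR (sub_R hqQ h))
        · exact Or.inl (hnew q hq hqQ)
      · rw [eM, eN]
        exact hx1 x hx hxR

/-! ### The game of Avoider -/

/-- status of a pair in the game of Avoider -/
def StA (X Y q : Finset β) : Prop :=
  (Disjoint q X ∧ Disjoint q Y) ∨ ((q ∩ Y).Nonempty ∧ q ⊆ X ∪ Y)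

lemma StA.ins {X Y q : Finset β} (h : StA X Y q) {x y : β} (hx : x ∉ q) (hy : y ∉ q) :
    StA (insert x X) (insert y Y) q := by
  rcases h with h | h
  · left
    rw [Finset.disjoint_insert_right, Finset.disjoint_insert_right]
    exact ⟨⟨hx, h.1⟩, hy, h.2⟩
  · right
    refine ⟨h.1.mono (Finset.inter_subset_inter_left (Finset.subset_insert y Y)), ?_⟩
    exact h.2.trans (Finset.union_subset_union (Finset.subset_insert x X)
      (Finset.subset_insert y Y))

lemma StA.insX {X Y q : Finset β} (h : StA X Y q) {x : β} (hx : x ∉ q) : StA (insert x X) Y q := by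
  rcases h with h | h
  · left
    rw [Finset.disjoint_insert_right]
    exact ⟨⟨hx, h.1⟩, h.2⟩
  · right
    exact ⟨h.1, h.2.trans (Finset.union_subset_union (Finset.subset_insert x X)
      (Finset.Subset.refl _))⟩

lemma StA.insY {X Y q : Finset β} (h : StA X Y q) {y : β} (hy : y ∉ q) : StA X (insert y Y) q := by
  rcases h with h | h
  · left
    rw [Finset.disjoint_insert_right]
    exact ⟨h.1, hy, h.2⟩
  · right
    refine ⟨h.1.mono (Finset.inter_subset_inter_left (Finset.subset_insert y Y)), ?_⟩
    exact h.2.trans (Finset.union_subset_union (Finset.Subset.refl _)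
      (Finset.subset_insert y Y))

lemma StA.open_of {X Y q : Finset β} (h : StA X Y q) {y : β} (hy : y ∈ q) (hX : y ∉ X)
    (hY : y ∉ Y) : Disjoint q X ∧ Disjoint q Y := by
  rcases h with h | h
  · exact h
  · have := h.2 hy
    rw [mem_union] at this
    tauto

lemma done_avoider (hA : ∀ i ∈ F, A i ⊆ E) (hn : E \ (Y ∪ X) = ∅) (hI : Inv E F A X Y Q)
    (hS : ∀ q ∈ Q, StA X Y q) (hΦ : Phi F A (X \ R Q) (Y \ R Q) < 1) (t : Bool) :
    Force E (fun S => ∀ i ∈ F, ¬ Disjoint (A i) S) t Y X := by
  have hall : E ⊆ X ∪ Y := by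
    rw [Finset.union_comm]
    exact Finset.sdiff_eq_empty_iff_subset.1 hn
  have hq : ∀ q ∈ Q, (q ∩ Y).Nonempty := by
    intro q hq
    rcases hS q hq with ⟨h1, h2⟩ | h
    · exfalso
      have hc := hI.hcard q hq
      have : q = ∅ := by
        rw [Finset.eq_empty_iff_forall_notMem]
        intro z hz
        have := hall (hI.hQE q hq hz)
        rw [mem_union] at this
        rcases this with h3 | h3
        · exact Finset.disjoint_left.1 h1 hz h3
        · exact Finset.disjoint_left.1 h2 hz h3
      rw [this] at hc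
      simp at hc
    · exact h.1
  exact Force.done _ _ _ hn (hI.final hA hall hq hΦ)

/-- the game of Avoider when only points of the pairs are left -/
theorem avoider_end (hA : ∀ i ∈ F, A i ⊆ E) : ∀ (n : ℕ),
    (∀ (X Y : Finset β) (Q : Finset (Finset β)) (q₀ : Finset β) (b : β),
      (E \ (Y ∪ X)).card = n → Inv E F A X Y Q → q₀ ∈ Q → b ∈ q₀ → b ∉ X → b ∉ Y →
      (∀ z ∈ q₀, z ≠ b → z ∈ X) → (∀ q ∈ Q, q ≠ q₀ → StA X Y q) →
      Phi F A (X \ R Q) (Y \ R Q) < 1 → E \ (Y ∪ X) ⊆ R Q →
      Force E (fun S => ∀ i ∈ F, ¬ Disjoint (A i) S) false Y X) ∧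
    (∀ (X Y : Finset β) (Q : Finset (Finset β)),
      (E \ (Y ∪ X)).card = n → Inv E F A X Y Q → (∀ q ∈ Q, StA X Y q) →
      Phi F A (X \ R Q) (Y \ R Q) < 1 → E \ (Y ∪ X) ⊆ R Q →
      Force E (fun S => ∀ i ∈ F, ¬ Disjoint (A i) S) true Y X) := by
  intro n
  induction n using Nat.strong_induction_on with
  | _ n ih =>
  constructor
  · intro X Y Q q₀ b hn hI hq₀ hb hbX hbY hrest hS hΦ hR
    have hbf : b ∈ E \ (Y ∪ X) := by
      rw [mem_sdiff, mem_union]
      exact ⟨hI.hQE q₀ hq₀ hb, by tauto⟩
    have hpos : 0 < n := by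
      rw [← hn]; exact Finset.card_pos.2 ⟨b, hbf⟩
    obtain ⟨m, rfl⟩ : ∃ m, n = m + 1 := ⟨n - 1, by omega⟩
    refine Force.his Y X ⟨b, hbf⟩ ?_
    intro y hy
    have hyE := hy
    rw [mem_sdiff, mem_union, not_or] at hyE
    obtain ⟨q, hq, hyq⟩ := mem_R.1 (hR hy)
    have eY : insert y Y \ R Q = Y \ R Q := sdiff_insert_of_mem (hR hy)
    by_cases hqq : q = q₀
    · subst hqq
      have hyb : y = b := by
        by_contra hne
        exact hyE.2.2 (hrest y hyq hne)
      subst hyb
      refine (ih m (by omega)).2 X (insert y Y) Q (card_free_left hn hy)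
        (hI.insY hyE.1 hyE.2.2) ?_ ?_ ?_
      · intro q' hq'
        by_cases he : q' = q
        · subst he
          right
          refine ⟨⟨y, by simp [hyq]⟩, ?_⟩
          intro z hz
          rw [mem_union, mem_insert]
          by_cases hzy : z = y
          · exact Or.inr (Or.inl hzy)
          · exact Or.inl (hrest z hz hzy)
        · refine (hS q' hq' he).insY ?_
          intro h
          exact Finset.disjoint_left.1 (hI.hdisj q' hq' q hq he) h hyq
      · rw [eY]; exact hΦ
      · rw [free_insert_left]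
        exact (Finset.erase_subset _ _).trans hR
    · have ho := (hS q hq hqq).open_of hyq hyE.2.2 hyE.2.1
      obtain ⟨y', hyq', hyy, _⟩ := partner (hI.hcard q hq) hyq
      have hy'X : y' ∉ X := Finset.disjoint_left.1 ho.1 hyq'
      have hy'Y : y' ∉ Y := Finset.disjoint_left.1 ho.2 hyq'
      have hyf : y' ∈ E \ (insert y Y ∪ X) := by
        rw [mem_sdiff, mem_union, mem_insert]
        exact ⟨hI.hQE q hq hyq', by tauto⟩
      have hc1 := card_free_left hn hy
      have hm : 0 < m := by
        rw [← hc1]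
        exact Finset.card_pos.2 ⟨y', hyf⟩
      obtain ⟨k, rfl⟩ : ∃ k, m = k + 1 := ⟨m - 1, by omega⟩
      have eX : insert y' X \ R Q = X \ R Q := sdiff_insert_of_mem (sub_R hq hyq')
      refine Force.mine _ _ y' hyf ?_
      have hbq : b ∉ q := by
        intro h
        exact Finset.disjoint_left.1 (hI.hdisj q hq q₀ hq₀ hqq) h hb
      refine (ih k (by omega)).1 (insert y' X) (insert y Y) Q q₀ b (card_free_right hc1 hyf)
        ((hI.insY hyE.1 hyE.2.2).insX (hI.hQE q hq hyq') ?_ (sub_R hq hyq')) hq₀ hb ?_ ?_ ?_ ?_ ?_ ?_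
      · rw [mem_insert]; tauto
      · rw [mem_insert, not_or]
        exact ⟨fun h => hbq (h ▸ hyq'), hbX⟩
      · rw [mem_insert, not_or]
        exact ⟨fun h => hbq (h ▸ hyq), hbY⟩
      · intro z hz hzb
        exact mem_insert_of_mem (hrest z hz hzb)
      · intro q' hq' he'
        by_cases he : q' = q
        · subst he
          right
          refine ⟨⟨y, by simp [hyq]⟩, ?_⟩
          intro z hz
          obtain ⟨w, hw, hwy, hw2⟩ := partner (hI.hcard q' hq) hyq
          rw [mem_union, mem_insert, mem_insert]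
          by_cases hzw : z = w
          · have : y' = w := by
              by_contra hne
              exact hyy (hw2 y' hyq' hne)
            exact Or.inl (Or.inl (hzw.trans this.symm))
          · exact Or.inr (Or.inl (hw2 z hz hzw))
        · refine (hS q' hq' he').ins ?_ ?_
          · intro h
            exact Finset.disjoint_left.1 (hI.hdisj q' hq' q hq he) h hyq'
          · intro h
            exact Finset.disjoint_left.1 (hI.hdisj q' hq' q hq he) h hyq
      · rw [eX, eY]; exact hΦ
      · rw [free_insert_right, free_insert_left]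
        exact (Finset.erase_subset _ _).trans ((Finset.erase_subset _ _).trans hR)
  · intro X Y Q hn hI hS hΦ hR
    rcases Nat.eq_zero_or_pos n with h0 | hpos
    · subst h0
      rw [Finset.card_eq_zero] at hn
      exact done_avoider hA hn hI hS hΦ true
    obtain ⟨m, rfl⟩ : ∃ m, n = m + 1 := ⟨n - 1, by omega⟩
    have hne : (E \ (Y ∪ X)).Nonempty := by rw [← Finset.card_pos]; omega
    obtain ⟨a, ha⟩ := hne
    have haE := ha
    rw [mem_sdiff, mem_union, not_or] at haE
    obtain ⟨q, hq, haq⟩ := mem_R.1 (hR ha)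
    have ho := (hS q hq).open_of haq haE.2.2 haE.2.1
    obtain ⟨b, hbq, hba, hb2⟩ := partner (hI.hcard q hq) haq
    refine Force.mine Y X a ha ?_
    have eX : insert a X \ R Q = X \ R Q := sdiff_insert_of_mem (hR ha)
    refine (ih m (by omega)).1 (insert a X) Y Q q b (card_free_right hn ha)
      (hI.insX haE.1 haE.2.1 (hR ha)) hq hbq ?_ (Finset.disjoint_left.1 ho.2 hbq) ?_ ?_ ?_ ?_
    · rw [mem_insert, not_or]
      exact ⟨hba, Finset.disjoint_left.1 ho.1 hbq⟩
    · intro z hz hzb
      rw [hb2 z hz hzb]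
      exact mem_insert_self _ _
    · intro q' hq' he
      refine (hS q' hq').insX ?_
      intro h
      exact Finset.disjoint_left.1 (hI.hdisj q' hq' q hq he) h haq
    · rw [eX]; exact hΦ
    · rw [free_insert_right]
      exact (Finset.erase_subset _ _).trans hR

/-- the game of Avoider -/
theorem avoider_force (hA : ∀ i ∈ F, A i ⊆ E) : ∀ (n : ℕ) (X Y : Finset β)
    (Q : Finset (Finset β)), (E \ (Y ∪ X)).card = n → Inv E F A X Y Q → (∀ q ∈ Q, StA X Y q) →
    (Phi F A (X \ R Q) (Y \ R Q) < 1 / 2 →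
      Force E (fun S => ∀ i ∈ F, ¬ Disjoint (A i) S) true Y X) ∧
    (Phi F A (X \ R Q) (Y \ R Q) < 1 →
      (∀ y ∈ E \ (Y ∪ X), y ∉ R Q → Phi F A (X \ R Q) (insert y (Y \ R Q)) < 1 / 2) →
      Force E (fun S => ∀ i ∈ F, ¬ Disjoint (A i) S) false Y X) := by
  intro n
  induction n using Nat.strong_induction_on with
  | _ n ih =>
  intro X Y Q hn hI hS
  constructor
  · intro hΦ
    by_cases hbig : ((E \ (Y ∪ X)) \ R Q).Nonempty
    · have hpos : 0 < n := by
        rw [← hn]
        obtain ⟨z, hz⟩ := hbig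
        exact Finset.card_pos.2 ⟨z, (mem_sdiff.1 hz).1⟩
      obtain ⟨m, rfl⟩ : ∃ m, n = m + 1 := ⟨n - 1, by omega⟩
      obtain ⟨x, hx, hmin⟩ := Finset.exists_min_image _
        (fun x => Phi F A (insert x (X \ R Q)) (Y \ R Q)) hbig
      rw [mem_sdiff] at hx
      have hxE := hx.1
      rw [mem_sdiff, mem_union, not_or] at hxE
      have hxM : x ∉ X \ R Q := fun h => hxE.2.2 (mem_sdiff.1 h).1
      have hxN : x ∉ Y \ R Q := fun h => hxE.2.1 (mem_sdiff.1 h).1
      have h1 : Phi F A (insert x (X \ R Q)) (Y \ R Q) < 1 := by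
        have := Phi_insert_M_le F A hxM hxN
        linarith
      obtain ⟨Q', hQQ, hI', hnew, eM, eN⟩ := hI.declare hA hxE.1 hxE.2.1 hx.2 h1
      refine Force.mine Y X x hx.1 ?_
      refine (ih m (by omega) (insert x X) Y Q' (card_free_right hn hx.1) hI' ?_).2 ?_ ?_
      · intro q hq
        by_cases hqQ : q ∈ Q
        · exact (hS q hqQ).insX (fun h => hx.2 (sub_R hqQ h))
        · exact Or.inl (hnew q hq hqQ)
      · rw [eM, eN]; exact h1
      · intro y hy hyR
        rw [eM, eN]
        rw [free_insert_right, mem_erase] at hy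
        have hyR' : y ∉ R Q := by
          intro h
          obtain ⟨q, hq, hyq⟩ := mem_R.1 h
          exact hyR (sub_R (hQQ hq) hyq)
        have hyE := hy.2
        rw [mem_sdiff, mem_union, not_or] at hyE
        refine lt_of_le_of_lt (round_first hy.1.symm hxM ?_ ?_ ?_) hΦ
        · exact fun h => hyE.2.2 (mem_sdiff.1 h).1
        · exact fun h => hyE.2.1 (mem_sdiff.1 h).1
        · exact hmin y (mem_sdiff.2 ⟨hy.2, hyR'⟩)
    · rw [Finset.not_nonempty_iff_eq_empty, Finset.sdiff_eq_empty_iff_subset] at hbig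
      exact (avoider_end hA n).2 X Y Q hn hI hS (by linarith) hbig
  · intro hΦ hy1
    rcases Nat.eq_zero_or_pos n with h0 | hpos
    · subst h0
      rw [Finset.card_eq_zero] at hn
      exact done_avoider hA hn hI hS hΦ false
    obtain ⟨m, rfl⟩ : ∃ m, n = m + 1 := ⟨n - 1, by omega⟩
    have hne : (E \ (Y ∪ X)).Nonempty := by rw [← Finset.card_pos]; omega
    refine Force.his Y X hne ?_
    intro y hy
    have hyE := hy
    rw [mem_sdiff, mem_union, not_or] at hyE
    by_cases hyR : y ∈ R Q
    · obtain ⟨q, hq, hyq⟩ := mem_R.1 hyR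
      have eY : insert y Y \ R Q = Y \ R Q := sdiff_insert_of_mem hyR
      have ho := (hS q hq).open_of hyq hyE.2.2 hyE.2.1
      obtain ⟨x, hxq, hxy, hx2⟩ := partner (hI.hcard q hq) hyq
      have hxX : x ∉ X := Finset.disjoint_left.1 ho.1 hxq
      have hxY : x ∉ Y := Finset.disjoint_left.1 ho.2 hxq
      have hxf : x ∈ E \ (insert y Y ∪ X) := by
        rw [mem_sdiff, mem_union, mem_insert]
        exact ⟨hI.hQE q hq hxq, by tauto⟩
      have hc1 := card_free_left hn hy
      have hm : 0 < m := by
        rw [← hc1]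
        exact Finset.card_pos.2 ⟨x, hxf⟩
      obtain ⟨k, rfl⟩ : ∃ k, m = k + 1 := ⟨m - 1, by omega⟩
      have eX : insert x X \ R Q = X \ R Q := sdiff_insert_of_mem (sub_R hq hxq)
      refine Force.mine _ _ x hxf ?_
      refine (ih k (by omega) (insert x X) (insert y Y) Q (card_free_right hc1 hxf)
        ((hI.insY hyE.1 hyE.2.2).insX (hI.hQE q hq hxq) ?_ (sub_R hq hxq)) ?_).2 ?_ ?_
      · rw [mem_insert]; tauto
      · intro q' hq'
        by_cases he : q' = q
        · subst he
          right
          refine ⟨⟨y, by simp [hyq]⟩, ?_⟩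
          intro z hz
          rw [mem_union, mem_insert, mem_insert]
          by_cases hzx : z = x
          · exact Or.inl (Or.inl hzx)
          · exact Or.inr (Or.inl (hx2 z hz hzx))
        · refine (hS q' hq').ins ?_ ?_
          · intro h
            exact Finset.disjoint_left.1 (hI.hdisj q' hq' q hq he) h hxq
          · intro h
            exact Finset.disjoint_left.1 (hI.hdisj q' hq' q hq he) h hyq
      · rw [eX, eY]; exact hΦ
      · intro z hz hzR
        rw [eX, eY]
        refine hy1 z ?_ hzR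
        rw [free_insert_right, mem_erase, free_insert_left, mem_erase] at hz
        exact hz.2.2
    · have e : insert y Y \ R Q = insert y (Y \ R Q) := sdiff_insert_of_notMem hyR
      refine (ih m (by omega) X (insert y Y) Q (card_free_left hn hy)
        (hI.insY hyE.1 hyE.2.2) ?_).1 ?_
      · intro q hq
        exact (hS q hq).insY (fun h => hyR (sub_R hq h))
      · rw [e]
        exact hy1 y hy hyR

/-! ### The criteria -/

lemma inv_start (h3 : ∀ i ∈ F, 3 ≤ (A i).card) : Inv E F A ∅ ∅ ∅ where
  hXE := by simp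
  hYE := by simp
  hXY := by simp
  hcard := by simp
  hQE := by simp
  hdisj := by simp
  howner := by simp
  hserved := by
    intro i hi _ hc
    have := h3 i hi
    simp only [Finset.empty_sdiff, Finset.sdiff_empty] at hc
    omega

/-- **The blocking criterion for Breaker**, who moves second. -/
theorem breaker_wins_cl [Inhabited β] (E : Finset β) (F : Finset K) (A : K → Finset β)
    (hA : ∀ i ∈ F, A i ⊆ E) (h3 : ∀ i ∈ F, 3 ≤ (A i).card) (hΦ : 2 * Phi F A ∅ ∅ < 1) :
    ∃ σ : List β → β, Legal E 1 σ ∧ ∀ h : List β, h.Nodup → (∀ e ∈ h, e ∈ E) →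
      (∀ e ∈ E, e ∈ h) → Cons σ 1 h → ∀ i ∈ F, ¬ A i ⊆ cls 0 h := by
  have hF : Force E (fun S => ∀ i ∈ F, ¬ A i ⊆ S) (decide (0 = 1)) ∅ ∅ := by
    have h0 : Phi F A (∅ \ R (∅ : Finset (Finset β))) (∅ \ R (∅ : Finset (Finset β))) < 1 := by
      rw [Finset.empty_sdiff]
      have := Phi_nonneg F A ∅ ∅
      linarith
    have h := (breaker_force hA _ ∅ ∅ ∅ rfl (inv_start h3) (by simp) h0).2 ?_
    · simpa using h
    · intro x _ _
      rw [Finset.empty_sdiff]
      have := Phi_insert_M_le F A (M := ∅) (B := ∅) (x := x) (by simp) (by simp)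
      linarith
  obtain ⟨σ, h1, h2⟩ := win_of_force E _ 1 0 (Or.inr ⟨rfl, rfl⟩) hF
  exact ⟨σ, h1, h2⟩

/-- **The blocking criterion for Avoider**, who moves first. -/
theorem avoider_wins_cl [Inhabited β] (E : Finset β) (F : Finset K) (A : K → Finset β)
    (hA : ∀ i ∈ F, A i ⊆ E) (h3 : ∀ i ∈ F, 3 ≤ (A i).card) (hΦ : 2 * Phi F A ∅ ∅ < 1) :
    ∃ σ : List β → β, Legal E 0 σ ∧ ∀ h : List β, h.Nodup → (∀ e ∈ h, e ∈ E) →
      (∀ e ∈ E, e ∈ h) → Cons σ 0 h → ∀ i ∈ F, ¬ A i ⊆ cls 0 h := by
  have hF : Force E (fun S => ∀ i ∈ F, ¬ Disjoint (A i) S) (decide (0 = 0)) ∅ ∅ := by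
    have h0 : Phi F A (∅ \ R (∅ : Finset (Finset β))) (∅ \ R (∅ : Finset (Finset β))) < 1 / 2 := by
      rw [Finset.empty_sdiff]
      linarith
    have h := (avoider_force hA _ ∅ ∅ ∅ rfl (inv_start h3) (by simp)).1 h0
    simpa using h
  obtain ⟨σ, h1, h2⟩ := win_of_force E _ 0 1 (Or.inl ⟨rfl, rfl⟩) hF
  refine ⟨σ, h1, ?_⟩
  intro h hnd hE hall hc i hi hsub
  exact h2 h hnd hE hall hc i hi ((disj_cls h).mono_left hsub)

end Pool.Agent.H30CG
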