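import Pool.Agent.H30CG.Pot

/-!
The emergency pairs and their invariant.

`X` is the set of the points claimed by the occupant (Maker or Avoider), `Y` the set of the points of
the other player, `Q` the set of the emergency pairs declared so far and `R Q` their union. Only the
points outside `R Q` count in the potential.
-/

set_option autoImplicit false
set_option linter.unusedSectionVars false

namespace Pool.Agent.H30CG

open Finset Pool.Agent.Helper40.Game Pool.Agent.Helper40.SM

variable {β : Type*} [DecidableEq β] {K : Type*} [DecidableEq K]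

/-- the points of the emergency pairs -/
def R (Q : Finset (Finset β)) : Finset β := Q.biUnion id

lemma mem_R {Q : Finset (Finset β)} {x : β} : x ∈ R Q ↔ ∃ q ∈ Q, x ∈ q := by
  simp [R]

lemma sub_R {Q : Finset (Finset β)} {q : Finset β} (hq : q ∈ Q) : q ⊆ R Q := fun _ hx =>
  mem_R.2 ⟨q, hq, hx⟩

/-- the invariant -/
structure Inv (E : Finset β) (F : Finset K) (A : K → Finset β) (X Y : Finset β)
    (Q : Finset (Finset β)) : Prop where
  hXE : X ⊆ E
  hYE : Y ⊆ E
  hXY : Disjoint X Y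
  hcard : ∀ q ∈ Q, q.card = 2
  hQE : ∀ q ∈ Q, q ⊆ E
  hdisj : ∀ q ∈ Q, ∀ q' ∈ Q, q ≠ q' → Disjoint q q'
  howner : ∀ q ∈ Q, ∃ i ∈ F, A i \ (X \ R Q) = q
  hserved : ∀ i ∈ F, Disjoint (A i) (Y \ R Q) → (A i \ (X \ R Q)).card ≤ 2 → ∃ q ∈ Q, q ⊆ A i

variable {E : Finset β} {F : Finset K} {A : K → Finset β} {X Y : Finset β}
  {Q : Finset (Finset β)}

/-- two different overlapping sets with at most four missing points -/
lemma Phi_pair {M B : Finset β} {i j : K} (hi : i ∈ F) (hj : j ∈ F) (hji : j ≠ i)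
    (hd : ¬ Disjoint (A i) (A j)) (hBi : Disjoint (A i) B) (hBj : Disjoint (A j) B)
    (hc : ((A i ∪ A j) \ M).card ≤ 4) : 1 ≤ Phi F A M B := by
  have hU : UU A i {j} = A i ∪ A j := by simp [UU]
  refine Phi_ge_of hi (J := {j}) ?_ ?_ ?_
  · rw [mem_cl]
    refine ⟨?_, Finset.singleton_nonempty j, ?_⟩
    · intro k hk
      rw [mem_singleton] at hk
      subst hk
      exact ⟨hj, hji, hd⟩
    · simp
  · rw [hU, Finset.disjoint_union_left]
    exact ⟨hBi, hBj⟩
  · rw [hU, card_singleton]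
    omega

/-- an owner is alive -/
lemma Inv.owner_alive (h : Inv E F A X Y Q) {q : Finset β} (hq : q ∈ Q) {i : K}
    (hi : A i \ (X \ R Q) = q) : Disjoint (A i) (Y \ R Q) := by
  rw [Finset.disjoint_left]
  intro x hx hxY
  rw [mem_sdiff] at hxY
  by_cases hxM : x ∈ X \ R Q
  · rw [mem_sdiff] at hxM
    exact Finset.disjoint_left.1 h.hXY hxM.1 hxY.1
  · have : x ∈ q := by
      rw [← hi, mem_sdiff]
      exact ⟨hx, hxM⟩
    exact hxY.2 (sub_R hq this)

/-- at the end of the game every winning set is hit -/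
theorem Inv.final (h : Inv E F A X Y Q) (hA : ∀ i ∈ F, A i ⊆ E) (hall : E ⊆ X ∪ Y)
    (hq : ∀ q ∈ Q, (q ∩ Y).Nonempty) (hΦ : Phi F A (X \ R Q) (Y \ R Q) < 1) :
    ∀ i ∈ F, ¬ Disjoint (A i) Y := by
  classical
  intro i hi hdis
  have hal : Disjoint (A i) (Y \ R Q) := hdis.mono_right sdiff_subset
  have hAX : A i ⊆ X := by
    intro x hx
    have := hall (hA i hi hx)
    rw [mem_union] at this
    rcases this with h1 | h1
    · exact h1
    · exact absurd h1 (Finset.disjoint_left.1 hdis hx)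
  have hnq : ∀ q ∈ Q, ¬ q ⊆ A i := by
    intro q hqQ hsub
    obtain ⟨y, hy⟩ := hq q hqQ
    rw [mem_inter] at hy
    exact Finset.disjoint_left.1 hdis (hsub hy.1) hy.2
  have hcard3 : 2 < (A i \ (X \ R Q)).card := by
    by_contra hcon
    obtain ⟨q, hqQ, hsub⟩ := h.hserved i hi hal (not_lt.1 hcon)
    exact hnq q hqQ hsub
  -- the owners
  have : Nonempty K := ⟨i⟩
  choose! o ho using h.howner
  set Q' := Q.filter (fun q => ¬ Disjoint q (A i)) with hQ'
  have hmemQ' : ∀ q, q ∈ Q' ↔ q ∈ Q ∧ ¬ Disjoint q (A i) := fun q => by rw [hQ', mem_filter]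
  set J := Q'.image o with hJ
  have hoinj : ∀ q ∈ Q, ∀ q' ∈ Q, o q = o q' → q = q' := by
    intro q hq1 q' hq2 he
    rw [← (ho q hq1).2, ← (ho q' hq2).2, he]
  have hJcard : J.card = Q'.card := by
    rw [hJ]
    apply Finset.card_image_of_injOn
    intro q hq1 q' hq2 he
    exact hoinj q ((hmemQ' q).1 hq1).1 q' ((hmemQ' q').1 hq2).1 he
  -- the missing points of `A i`
  have hmiss : ∀ x ∈ A i \ (X \ R Q), ∃ q ∈ Q', x ∈ q := by
    intro x hx
    rw [mem_sdiff] at hx
    have hxX := hAX hx.1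
    have hxR : x ∈ R Q := by
      by_contra hcon
      exact hx.2 (mem_sdiff.2 ⟨hxX, hcon⟩)
    obtain ⟨q, hq1, hq2⟩ := mem_R.1 hxR
    refine ⟨q, (hmemQ' q).2 ⟨hq1, ?_⟩, hq2⟩
    intro hd
    exact Finset.disjoint_left.1 hd hq2 hx.1
  have hQne : Q'.Nonempty := by
    have : (A i \ (X \ R Q)).Nonempty := by
      rw [← Finset.card_pos]; omega
    obtain ⟨x, hx⟩ := this
    obtain ⟨q, hq1, _⟩ := hmiss x hx
    exact ⟨q, hq1⟩
  have hJmem : ∀ j ∈ J, ∃ q ∈ Q', o q = j := by
    intro j hj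
    rw [hJ, mem_image] at hj
    exact hj
  have hcl : J ∈ cl F A i := by
    rw [mem_cl]
    refine ⟨?_, hQne.image o, ?_⟩
    · intro j hj
      obtain ⟨q, hq1, rfl⟩ := hJmem j hj
      obtain ⟨hqQ, hqd⟩ := (hmemQ' q).1 hq1
      have ho1 := ho q hqQ
      refine ⟨ho1.1, ?_, ?_⟩
      · intro he
        have := h.hcard q hqQ
        rw [← ho1.2, he] at this
        omega
      · intro hd
        apply hqd
        rw [Finset.disjoint_left]
        intro x hx hxi
        have : x ∈ A (o q) := by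
          have h2 : x ∈ A (o q) \ (X \ R Q) := by rw [ho1.2]; exact hx
          exact (mem_sdiff.1 h2).1
        exact Finset.disjoint_left.1 hd hxi this
    · intro j hj j' hj' hne
      obtain ⟨q, hq1, rfl⟩ := hJmem j hj
      obtain ⟨q', hq1', rfl⟩ := hJmem j' hj'
      have hqQ := ((hmemQ' q).1 hq1).1
      have hqQ' := ((hmemQ' q').1 hq1').1
      by_contra hdd
      have hle : ((A (o q) ∪ A (o q')) \ (X \ R Q)).card ≤ 4 := by
        rw [Finset.union_sdiff_distrib, (ho q hqQ).2, (ho q' hqQ').2]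
        refine (Finset.card_union_le _ _).trans ?_
        rw [h.hcard q hqQ, h.hcard q' hqQ']
      have := Phi_pair (F := F) (A := A) (M := X \ R Q) (B := Y \ R Q) (ho q hqQ).1
        (ho q' hqQ').1 (Ne.symm hne) hdd (h.owner_alive hqQ (ho q hqQ).2)
        (h.owner_alive hqQ' (ho q' hqQ').2) hle
      linarith
  have h1 : 1 ≤ Phi F A (X \ R Q) (Y \ R Q) := by
    refine Phi_ge_of hi hcl ?_ ?_
    · unfold UU
      rw [Finset.disjoint_union_left, Finset.disjoint_biUnion_left]
      refine ⟨hal, ?_⟩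
      intro j hj
      obtain ⟨q, hq1, rfl⟩ := hJmem j hj
      have hqQ := ((hmemQ' q).1 hq1).1
      exact h.owner_alive hqQ (ho q hqQ).2
    · have hsub : UU A i J \ (X \ R Q) ⊆ Q'.biUnion id := by
        intro x hx
        rw [mem_sdiff] at hx
        unfold UU at hx
        rw [mem_union, mem_biUnion] at hx
        rw [mem_biUnion]
        rcases hx with ⟨h1 | ⟨j, hj, hxj⟩, h2⟩
        · obtain ⟨q, hq1, hq2⟩ := hmiss x (mem_sdiff.2 ⟨h1, h2⟩)
          exact ⟨q, hq1, hq2⟩
        · obtain ⟨q, hq1, rfl⟩ := hJmem j hj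
          have hqQ := ((hmemQ' q).1 hq1).1
          refine ⟨q, hq1, ?_⟩
          show x ∈ q
          rw [← (ho q hqQ).2, mem_sdiff]
          exact ⟨hxj, h2⟩
      refine (Finset.card_le_card hsub).trans ?_
      refine (Finset.card_biUnion_le).trans ?_
      have : ∑ q ∈ Q', (id q : Finset β).card = Q'.card * 2 := by
        have e : ∀ q ∈ Q', (id q : Finset β).card = 2 := fun q hq1 =>
          h.hcard q ((hmemQ' q).1 hq1).1
        rw [Finset.sum_congr rfl e, Finset.sum_const, smul_eq_mul]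
      rw [this, hJcard]
      omega
  linarith

/-- the occupant claims a point outside the pairs: new pairs are declared -/
theorem Inv.declare (h : Inv E F A X Y Q) (hA : ∀ i ∈ F, A i ⊆ E) {x : β} (hx : x ∈ E)
    (hxY : x ∉ Y) (hxR : x ∉ R Q)
    (hΦ : Phi F A (insert x (X \ R Q)) (Y \ R Q) < 1) :
    ∃ Q', Q ⊆ Q' ∧ Inv E F A (insert x X) Y Q' ∧
      (∀ q ∈ Q', q ∉ Q → Disjoint q (insert x X) ∧ Disjoint q Y) ∧
      (insert x X) \ R Q' = insert x (X \ R Q) ∧ Y \ R Q' = Y \ R Q := by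
  classical
  set M := X \ R Q with hM
  set N := Y \ R Q with hN
  set M' := insert x M with hM'
  -- the sets that need a new pair
  set D := F.filter (fun i => Disjoint (A i) N ∧ (A i \ M').card ≤ 2 ∧ ∀ q ∈ Q, ¬ q ⊆ A i)
    with hD
  have hmemD : ∀ i, i ∈ D ↔ i ∈ F ∧ Disjoint (A i) N ∧ (A i \ M').card ≤ 2 ∧
      ∀ q ∈ Q, ¬ q ⊆ A i := fun i => by rw [hD, mem_filter]
  have hMX : M ⊆ X := sdiff_subset
  -- old owners
  have hold : ∀ q ∈ Q, ∀ j ∈ F, A j \ M = q → A j \ M' = q := by
    intro q hq j _ hj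
    ext z
    rw [hM', ← hj, mem_sdiff, mem_sdiff, mem_insert, not_or]
    constructor
    · rintro ⟨h1, h2, h3⟩
      exact ⟨h1, h3⟩
    · rintro ⟨h1, h2⟩
      refine ⟨h1, ?_, h2⟩
      intro hz
      apply hxR
      rw [← hz]
      apply sub_R hq
      rw [← hj, mem_sdiff]
      exact ⟨h1, h2⟩
  -- exactly two missing points
  have hD2 : ∀ i ∈ D, (A i \ M').card = 2 := by
    intro i hi
    obtain ⟨hiF, hal, hc, hns⟩ := (hmemD i).1 hi
    have h3 : 2 < (A i \ M).card := by
      by_contra hcon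
      obtain ⟨q, hqQ, hsub⟩ := h.hserved i hiF hal (not_lt.1 hcon)
      exact hns q hqQ hsub
    have h4 : A i \ M' = (A i \ M).erase x := by
      ext z
      simp only [hM', mem_sdiff, mem_insert, mem_erase, not_or]
      tauto
    have h5 := Finset.pred_card_le_card_erase (s := A i \ M) (a := x)
    rw [← h4] at h5
    omega
  -- the new pairs avoid the old ones
  have hDR : ∀ i ∈ D, Disjoint (A i \ M') (R Q) := by
    intro i hi
    obtain ⟨hiF, hal, hc, hns⟩ := (hmemD i).1 hi
    rw [Finset.disjoint_left]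
    intro a ha haR
    obtain ⟨q, hqQ, haq⟩ := mem_R.1 haR
    obtain ⟨j, hjF, hj⟩ := h.howner q hqQ
    have hj' := hold q hqQ j hjF hj
    have haj : a ∈ A j := by
      rw [← hj, mem_sdiff] at haq; exact haq.1
    have hqj : q ⊆ A j := by
      rw [← hj]; exact sdiff_subset
    have hji : j ≠ i := by
      intro he
      exact hns q hqQ (he ▸ hqj)
    have hcu : ((A i ∪ A j) \ M').card ≤ 4 := by
      rw [Finset.union_sdiff_distrib]
      refine (Finset.card_union_le _ _).trans ?_
      rw [hj', h.hcard q hqQ, hD2 i hi]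
    have hnd : ¬ Disjoint (A i) (A j) := by
      intro hd
      exact Finset.disjoint_left.1 hd (mem_sdiff.1 ha).1 haj
    have := Phi_pair (F := F) (A := A) (M := M') (B := N) hiF hjF hji hnd hal
      (h.owner_alive hqQ hj) hcu
    linarith
  -- the new pairs are equal or disjoint
  have hDD : ∀ i ∈ D, ∀ j ∈ D, A i \ M' ≠ A j \ M' → Disjoint (A i \ M') (A j \ M') := by
    intro i hi j hj hne
    obtain ⟨hiF, hal, hc, hns⟩ := (hmemD i).1 hi
    obtain ⟨hjF, hal', hc', hns'⟩ := (hmemD j).1 hj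
    by_contra hnd
    have hji : j ≠ i := by
      intro he
      rw [he] at hne
      exact hne rfl
    have hcu : ((A i ∪ A j) \ M').card ≤ 4 := by
      rw [Finset.union_sdiff_distrib]
      refine (Finset.card_union_le _ _).trans ?_
      rw [hD2 i hi, hD2 j hj]
    have hnd' : ¬ Disjoint (A i) (A j) := by
      intro hd
      exact hnd (hd.mono sdiff_subset sdiff_subset)
    have := Phi_pair (F := F) (A := A) (M := M') (B := N) hiF hjF hji hnd' hal hal' hcu
    linarith
  -- points of the new pairs are unclaimed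
  have hfree : ∀ i ∈ D, ∀ a ∈ A i \ M', a ∉ insert x X ∧ a ∉ Y := by
    intro i hi a ha
    obtain ⟨hiF, hal, hc, hns⟩ := (hmemD i).1 hi
    have haR : a ∉ R Q := Finset.disjoint_left.1 (hDR i hi) ha
    rw [mem_sdiff, hM', mem_insert, not_or] at ha
    constructor
    · rw [mem_insert, not_or]
      refine ⟨ha.2.1, ?_⟩
      intro haX
      exact ha.2.2 (mem_sdiff.2 ⟨haX, haR⟩)
    · intro haY
      exact Finset.disjoint_left.1 hal ha.1 (mem_sdiff.2 ⟨haY, haR⟩)
  set Q' := Q ∪ D.image (fun i => A i \ M') with hQ'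
  have hmemQ' : ∀ q, q ∈ Q' ↔ q ∈ Q ∨ ∃ i ∈ D, A i \ M' = q := fun q => by
    rw [hQ', mem_union, mem_image]
  have hRQ' : ∀ z, z ∈ R Q' ↔ z ∈ R Q ∨ ∃ i ∈ D, z ∈ A i \ M' := by
    intro z
    rw [mem_R, mem_R]
    constructor
    · rintro ⟨q, hq, hz⟩
      rcases (hmemQ' q).1 hq with h1 | ⟨i, hi, rfl⟩
      · exact Or.inl ⟨q, h1, hz⟩
      · exact Or.inr ⟨i, hi, hz⟩
    · rintro (⟨q, hq, hz⟩ | ⟨i, hi, hz⟩)
      · exact ⟨q, (hmemQ' q).2 (Or.inl hq), hz⟩
      · exact ⟨A i \ M', (hmemQ' _).2 (Or.inr ⟨i, hi, rfl⟩), hz⟩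
  have eM : insert x X \ R Q' = M' := by
    ext z
    rw [mem_sdiff, hRQ', hM', hM, mem_insert, mem_insert, mem_sdiff]
    constructor
    · rintro ⟨h1, h2⟩
      rw [not_or] at h2
      rcases h1 with h1 | h1
      · exact Or.inl h1
      · exact Or.inr ⟨h1, h2.1⟩
    · intro h1
      have h2 : z ∉ R Q := by
        rcases h1 with h1 | h1
        · rw [h1]; exact hxR
        · exact h1.2
      refine ⟨?_, ?_⟩
      · rcases h1 with h1 | h1
        · exact Or.inl h1
        · exact Or.inr h1.1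
      · rintro (h3 | ⟨i, hi, hz⟩)
        · exact h2 h3
        · have := (hfree i hi z hz).1
          rw [mem_insert, not_or] at this
          rcases h1 with h1 | h1
          · exact this.1 h1
          · exact this.2 h1.1
  have eN : Y \ R Q' = N := by
    ext z
    rw [mem_sdiff, hRQ', hN, mem_sdiff]
    constructor
    · rintro ⟨h1, h2⟩
      rw [not_or] at h2
      exact ⟨h1, h2.1⟩
    · rintro ⟨h1, h2⟩
      refine ⟨h1, ?_⟩
      rintro (h3 | ⟨i, hi, hz⟩)
      · exact h2 h3
      · exact (hfree i hi z hz).2 h1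
  refine ⟨Q', ?_, ?_, ?_, eM, eN⟩
  · rw [hQ']; exact subset_union_left
  · constructor
    · exact Finset.insert_subset hx h.hXE
    · exact h.hYE
    · rw [Finset.disjoint_insert_left]
      exact ⟨hxY, h.hXY⟩
    · intro q hq
      rcases (hmemQ' q).1 hq with h1 | ⟨i, hi, rfl⟩
      · exact h.hcard q h1
      · exact hD2 i hi
    · intro q hq
      rcases (hmemQ' q).1 hq with h1 | ⟨i, hi, rfl⟩
      · exact h.hQE q h1
      · exact sdiff_subset.trans (hA i ((hmemD i).1 hi).1)
    · intro q hq q' hq' hne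
      rcases (hmemQ' q).1 hq with h1 | ⟨i, hi, rfl⟩ <;>
        rcases (hmemQ' q').1 hq' with h2 | ⟨j, hj, rfl⟩
      · exact h.hdisj q h1 q' h2 hne
      · exact ((hDR j hj).symm).mono_left (sub_R h1)
      · exact (hDR i hi).mono_right (sub_R h2)
      · exact hDD i hi j hj hne
    · intro q hq
      rw [eM]
      rcases (hmemQ' q).1 hq with h1 | ⟨i, hi, rfl⟩
      · obtain ⟨j, hjF, hj⟩ := h.howner q h1
        exact ⟨j, hjF, hold q h1 j hjF hj⟩
      · exact ⟨i, ((hmemD i).1 hi).1, rfl⟩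
    · intro i hi hal hc
      rw [eM] at hc
      rw [eN] at hal
      by_cases hs : ∃ q ∈ Q, q ⊆ A i
      · obtain ⟨q, hq, hsub⟩ := hs
        exact ⟨q, (hmemQ' q).2 (Or.inl hq), hsub⟩
      · push Not at hs
        have hiD : i ∈ D := (hmemD i).2 ⟨hi, hal, hc, hs⟩
        exact ⟨A i \ M', (hmemQ' _).2 (Or.inr ⟨i, hiD, rfl⟩), sdiff_subset⟩
  · intro q hq hqn
    rcases (hmemQ' q).1 hq with h1 | ⟨i, hi, rfl⟩
    · exact absurd h1 hqn
    · constructor
      · rw [Finset.disjoint_left]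
        intro a ha
        exact (hfree i hi a ha).1
      · rw [Finset.disjoint_left]
        intro a ha
        exact (hfree i hi a ha).2

/-- the other player claims a point -/
lemma Inv.insY (h : Inv E F A X Y Q) {y : β} (hy : y ∈ E) (hyX : y ∉ X) :
    Inv E F A X (insert y Y) Q where
  hXE := h.hXE
  hYE := Finset.insert_subset hy h.hYE
  hXY := by
    rw [Finset.disjoint_insert_right]
    exact ⟨hyX, h.hXY⟩
  hcard := h.hcard
  hQE := h.hQE
  hdisj := h.hdisj
  howner := h.howner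
  hserved := by
    intro i hi hal hc
    refine h.hserved i hi ?_ hc
    exact hal.mono_right (Finset.sdiff_subset_sdiff (Finset.subset_insert y Y)
      (Finset.Subset.refl _))

lemma sdiff_insert_of_mem {X R : Finset β} {x : β} (hx : x ∈ R) : insert x X \ R = X \ R := by
  ext z
  simp only [mem_sdiff, mem_insert]
  constructor
  · rintro ⟨h1 | h1, h2⟩
    · exact absurd (h1 ▸ hx) h2
    · exact ⟨h1, h2⟩
  · rintro ⟨h1, h2⟩
    exact ⟨Or.inr h1, h2⟩

lemma sdiff_insert_of_notMem {X R : Finset β} {x : β} (hx : x ∉ R) :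
    insert x X \ R = insert x (X \ R) := Finset.insert_sdiff_of_notMem _ hx

/-- the occupant claims a point of a pair -/
lemma Inv.insX (h : Inv E F A X Y Q) {x : β} (hx : x ∈ E) (hxY : x ∉ Y) (hxR : x ∈ R Q) :
    Inv E F A (insert x X) Y Q where
  hXE := Finset.insert_subset hx h.hXE
  hYE := h.hYE
  hXY := by
    rw [Finset.disjoint_insert_left]
    exact ⟨hxY, h.hXY⟩
  hcard := h.hcard
  hQE := h.hQE
  hdisj := h.hdisj
  howner := by
    rw [sdiff_insert_of_mem hxR]
    exact h.howner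
  hserved := by
    rw [sdiff_insert_of_mem hxR]
    exact h.hserved

end Pool.Agent.H30CG
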