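import Pool.Graph.R_seed8.Y812.CG.Log
import Pool.Agent.H30CG.GSum

/-!
The numerical inequalities of the blocking criterion, for all `N ≥ 2 ^ 32`.
-/

set_option autoImplicit false

namespace Pool.Agent.H30CG

open Pool.Agent.Y812.CG

variable {N : ℕ}

lemma base32 (hN : 2 ^ 32 ≤ N) : ∃ n l : ℝ, 32 ≤ n ∧ Real.log N = n * Real.log 2 ∧
    l = Real.log n ∧ 5 * Real.log 2 ≤ l ∧ l ≤ 5 * Real.log 2 - 1 + n / 32 ∧
    f N * Real.log 2 = 2 * n * Real.log 2 - 2 * l + 2 - 3 * Real.log 2 ∧
    eta N * Real.log 2 * n = 3 * l := by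
  have hc : 0 < Real.log 2 := Real.log_pos (by norm_num)
  have hNr : (2 : ℝ) ^ 32 ≤ (N : ℝ) := by exact_mod_cast hN
  have hN0 : (0 : ℝ) < N := lt_of_lt_of_le (by positivity) hNr
  have hn : 32 ≤ Real.log N / Real.log 2 := by
    rw [le_div_iff₀ hc]
    have := Real.log_le_log (by positivity) hNr
    rw [Real.log_pow] at this
    exact_mod_cast this
  have hn0 : 0 < Real.log N / Real.log 2 := by linarith
  have h32 : Real.log 32 = 5 * Real.log 2 := by
    rw [show (32 : ℝ) = 2 ^ 5 by norm_num, Real.log_pow]; norm_num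
  refine ⟨Real.log N / Real.log 2, Real.log (Real.log N / Real.log 2), hn, ?_, rfl, ?_, ?_, ?_, ?_⟩
  · field_simp
  · rw [← h32]
    exact Real.log_le_log (by norm_num) hn
  · have h := Real.log_le_sub_one_of_pos (show 0 < (Real.log N / Real.log 2) / 32 by positivity)
    rw [Real.log_div hn0.ne' (by norm_num), h32] at h
    linarith
  · unfold f
    simp only [Real.logb, Real.log_exp]
    field_simp
  · have hlN : Real.log N ≠ 0 := ((div_pos_iff_of_pos_right hc).1 hn0).ne'
    unfold eta
    simp only [Real.logb]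
    field_simp

/-- the numerical facts for the smallest `q` with `f N + 1 + 2 * eta N ≤ q` -/
theorem upper_crit (hN : 2 ^ 32 ≤ N) {q : ℕ} (h : f N + 1 + 2 * eta N ≤ q)
    (h' : (q : ℝ) < f N + 2 + 2 * eta N) :
    5 ≤ q ∧ 4 * (G N q : ℝ) ≤ 2 ^ (q.choose 2) ∧
      64 * ((N.choose q : ℝ) * (G N q : ℝ)) < (2 ^ (q.choose 2)) ^ 2 := by
  obtain ⟨n, l, hn, hlogN, hl, hl1, hl3, hf, he⟩ := base32 hN
  have c1 := Real.log_two_gt_d9
  have c2 := Real.log_two_lt_d9
  set c := Real.log 2 with hc
  have hc0 : 0 < c := by linarith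
  have hl2 : l ≤ n * 0.10831 := by linarith
  have hl0 : 0 < l := by linarith
  have hn0 : 0 < n := by linarith
  have hNr : (2 : ℝ) ^ 32 ≤ (N : ℝ) := by exact_mod_cast hN
  have hN0 : (0 : ℝ) < N := lt_of_lt_of_le (by positivity) hNr
  -- `w = eta c / 2`
  obtain ⟨w, hw⟩ : ∃ w : ℝ, 2 * w = eta N * c := ⟨eta N * c / 2, by ring⟩
  have hwn : 2 * n * w = 3 * l := by rw [← he, ← hw]; ring
  have hw0 : 0 < w := by
    by_contra hneg
    have : n * w ≤ 0 := mul_nonpos_of_nonneg_of_nonpos hn0.le (not_lt.1 hneg)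
    linarith
  have hw1 : w ≤ 0.1625 := by
    have : n * w ≤ n * 0.1625 := by linarith
    exact le_of_mul_le_mul_left this hn0
  have q1 : 2 * n * c - 2 * l + 2 - 2 * c + 4 * w ≤ (q : ℝ) * c := by nlinarith
  have q2 : (q : ℝ) * c < 2 * n * c - 2 * l + 2 - c + 4 * w := by nlinarith
  have q3 : (q : ℝ) ≤ 2 * n := by
    have : (q : ℝ) * c ≤ (2 * n) * c := by linarith
    exact le_of_mul_le_mul_right this hc0
  have q4 : 1.7 * n ≤ (q : ℝ) := by
    have : (1.7 * n) * c ≤ (q : ℝ) * c := by nlinarith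
    exact le_of_mul_le_mul_right this hc0
  have q5 : (54 : ℝ) ≤ q := by linarith
  have hq54 : 54 ≤ q := by exact_mod_cast q5
  have hq0 : (0 : ℝ) < q := by linarith
  have lq : Real.log (q : ℝ) ≤ l + c := by
    have : Real.log (q : ℝ) ≤ Real.log (n * 2) :=
      Real.log_le_log (by positivity) (by linarith)
    rw [Real.log_mul (by linarith) (by norm_num), ← hl] at this
    exact this
  have lq2 : l + 2 * 1.178 ≤ Real.log (2 * Real.pi) + Real.log (q : ℝ) := by
    have hpi := Real.pi_gt_d2
    rw [← Real.log_mul (by positivity) (by positivity)]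
    have h1 : n * 10.67 ≤ 2 * Real.pi * (q : ℝ) := by nlinarith
    have h2 := Real.log_le_log (by positivity) h1
    rw [Real.log_mul (by positivity) (by norm_num), ← hl] at h2
    have h3 := Real.log_le_log (by positivity) (show (2 : ℝ) ^ 17 ≤ 10.67 ^ 5 by norm_num)
    rw [Real.log_pow, Real.log_pow] at h3
    push_cast at h3
    linarith
  -- the number `R`
  obtain ⟨R, hR⟩ : ∃ R : ℝ, c * R = (2 * l - 2 + 2 * c - 4 * w) * (1 - c / 2 + 2 * w) :=
    ⟨(2 * l - 2 + 2 * c - 4 * w) * (1 - c / 2 + 2 * w) / c, by field_simp⟩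
  have hu1 : 0 < 2 * l - 2 + 2 * c - 4 * w := by linarith
  have hu2 : 0 < 1 - c / 2 + 2 * w := by linarith
  have hR0 : 0 ≤ R := by
    have : 0 < c * R := by rw [hR]; exact mul_pos hu1 hu2
    exact (pos_of_mul_pos_of_pos_left' hc0 this).le
  have hR1 : R ≤ 2.8235 * l := by
    have : c * R ≤ c * (2.8235 * l) := by
      rw [hR]
      have h1 : (2 * l - 2 + 2 * c - 4 * w) * (1 - c / 2 + 2 * w) ≤ (2 * l) * 0.97844 :=
        mul_le_mul (by linarith) (by linarith) hu2.le (by linarith)
      have h2 : 0.69314718 * (2.8235 * l) ≤ c * (2.8235 * l) :=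
        mul_le_mul_of_nonneg_right (by linarith) (by linarith)
      linarith
    exact le_of_mul_le_mul_left this hc0
  have hR2 : R - 4 * w ≤ 2.8232 * l - 2.129 := by
    have : c * (R - 4 * w) ≤ c * (2.8232 * l - 2.129) := by
      have e : c * (R - 4 * w) = (2 * l - 2 + 2 * c - 4 * w) * (1 - c / 2 + 2 * w) - 4 * c * w := by
        rw [← hR]; ring
      rw [e]
      have e2 : (2 * l - 2 + 2 * c - 4 * w) * (1 - c / 2 + 2 * w) - 4 * c * w =
          (2 * l) * (1 - c / 2) - 2 + 3 * c - c * c + w * (4 * l - 8 + 2 * c) - 8 * (w * w) := by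
        ring
      rw [e2]
      have h1 : w * (4 * l - 8 + 2 * c) ≤ 0.1625 * (4 * l - 8 + 2 * c) :=
        mul_le_mul_of_nonneg_right hw1 (by linarith)
      have h2 : 0 ≤ w * w := by positivity
      have h3 : (2 * l) * (1 - c / 2) ≤ (2 * l) * 0.65342641 :=
        mul_le_mul_of_nonneg_left (by linarith) (by linarith)
      have h4 : 0.69314718 * (2.8232 * l - 2.129) ≤ c * (2.8232 * l - 2.129) :=
        mul_le_mul_of_nonneg_right (by linarith) (by linarith)
      have h5 : 0.69314718 * 0.69314718 ≤ c * c := mul_le_mul (by linarith) (by linarith)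
        (by norm_num) hc0.le
      linarith
    exact le_of_mul_le_mul_left this hc0
  -- the bound of the logarithm of the expected number
  obtain ⟨M, hM⟩ : ∃ M : ℝ, M = n * c - 6 * l + R - l / 2 - 1.178 := ⟨_, rfl⟩
  have hR3 : 1.885 * l - 1.192 ≤ R := by
    have : c * (1.885 * l - 1.192) ≤ c * R := by
      rw [hR]
      have h1 : (2 * l - 2 + 2 * c - 0.65) * 0.6534264 ≤
          (2 * l - 2 + 2 * c - 4 * w) * (1 - c / 2 + 2 * w) :=
        mul_le_mul (by linarith) (by linarith) (by norm_num) hu1.le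
      have h2 : c * (1.885 * l - 1.192) ≤ 0.69314719 * (1.885 * l - 1.192) :=
        mul_le_mul_of_nonneg_right (by linarith) (by linarith)
      linarith
    exact le_of_mul_le_mul_left this hc0
  have hM0 : 0 ≤ M := by
    have : n * 0.69314718 ≤ n * c := mul_le_mul_of_nonneg_left (by linarith) hn0.le
    linarith
  have hfac : (0 : ℝ) < (q.factorial : ℝ) := by exact_mod_cast Nat.factorial_pos q
  have hS : (N.choose q : ℝ) ≤ Real.exp M * 2 ^ (q.choose 2) := by
    have h1 : (N.choose q : ℝ) ≤ (N : ℝ) ^ q / q.factorial := Nat.choose_le_pow_div q N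
    refine h1.trans ?_
    refine (Real.log_le_log_iff (by positivity) (by positivity)).1 ?_
    rw [Real.log_div (by positivity) hfac.ne', Real.log_pow, hlogN,
      Real.log_mul (Real.exp_pos _).ne' (by positivity), Real.log_exp, Real.log_pow,
      Nat.cast_choose_two, ← hc]
    have h2 := Stirling.le_log_factorial_stirling (n := q) (by omega)
    have h3 : (q : ℝ) - 2 * n ≤ q * (Real.log q - l - c) := by
      have h := Real.log_le_sub_one_of_pos (show 0 < n * 2 / (q : ℝ) by positivity)
      rw [Real.log_div (by positivity) hq0.ne', Real.log_mul (by linarith) (by norm_num), ← hl,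
        ← hc] at h
      have h' := mul_le_mul_of_nonneg_left h hq0.le
      have e : (q : ℝ) * (n * 2 / q - 1) = 2 * n - q := by field_simp
      rw [e] at h'
      linarith
    have hb : 1 - c / 2 + 2 * w ≤ ((q : ℝ) - 1) / 2 * c - n * c + l + c := by
      have e : ((q : ℝ) - 1) / 2 * c = (q : ℝ) * c / 2 - c / 2 := by ring
      rw [e]
      linarith
    have hb2 := mul_le_mul_of_nonneg_left hb hq0.le
    have h4 : 2 * n - n * c + 6 * l - R ≤ q * (1 - c / 2 + 2 * w) := by
      have : c * (2 * n - n * c + 6 * l - R) ≤ c * (q * (1 - c / 2 + 2 * w)) := by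
        have h5 := mul_le_mul_of_nonneg_right q1 hu2.le
        have e : (2 * n * c - 2 * l + 2 - 2 * c + 4 * w) * (1 - c / 2 + 2 * w) =
            c * (2 * n - n * c) + 2 * c * (2 * n * w) -
              (2 * l - 2 + 2 * c - 4 * w) * (1 - c / 2 + 2 * w) := by ring
        rw [e, hwn, ← hR] at h5
        linarith
      exact le_of_mul_le_mul_left this hc0
    have e6 : (q : ℝ) * (((q : ℝ) - 1) / 2 * c - n * c + l + c) =
        (q : ℝ) * (q - 1) / 2 * c - q * (n * c) + q * (l + c) := by ring
    have e7 : (q : ℝ) * (Real.log q - l - c) = q * Real.log q - q * (l + c) := by ring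
    rw [e6] at hb2
    rw [e7] at h3
    linarith
  have hZ : 1 ≤ Real.exp M := Real.one_le_exp hM0
  have hZ0 : 0 < Real.exp M := Real.exp_pos M
  have A1 : 1024 * (q : ℝ) ^ 4 * Real.exp M ^ 2 ≤ N ^ 2 := by
    refine (Real.log_le_log_iff (by positivity) (by positivity)).1 ?_
    rw [Real.log_mul (by positivity) (by positivity), Real.log_mul (by norm_num) (by positivity),
      Real.log_pow, Real.log_pow, Real.log_pow, Real.log_exp, hlogN,
      show (1024 : ℝ) = 2 ^ 10 by norm_num, Real.log_pow, ← hc]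
    push_cast
    linarith
  have A2 : 256 * (q : ℝ) * N * Real.exp M ≤ 2 ^ q := by
    refine (Real.log_le_log_iff (by positivity) (by positivity)).1 ?_
    rw [Real.log_mul (by positivity) (by positivity), Real.log_mul (by positivity) (by positivity),
      Real.log_mul (by norm_num) (by positivity), Real.log_pow, Real.log_exp, hlogN,
      show (256 : ℝ) = 2 ^ 8 by norm_num, Real.log_pow, ← hc]
    push_cast
    linarith
  have A3 : 1536 * (q : ℝ) ^ 7 * Real.exp M ^ 2 ≤ N ^ 3 := by
    have h1 : 1536 * (q : ℝ) ^ 7 * Real.exp M ^ 2 ≤ 2048 * (q : ℝ) ^ 7 * Real.exp M ^ 2 := by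
      refine mul_le_mul_of_nonneg_right ?_ (by positivity)
      exact mul_le_mul_of_nonneg_right (by norm_num) (by positivity)
    refine h1.trans ((Real.log_le_log_iff (by positivity) (by positivity)).1 ?_)
    rw [Real.log_mul (by positivity) (by positivity), Real.log_mul (by norm_num) (by positivity),
      Real.log_pow, Real.log_pow, Real.log_pow, Real.log_exp, hlogN,
      show (2048 : ℝ) = 2 ^ 11 by norm_num, Real.log_pow, ← hc]
    push_cast
    have : n * 0.69314718 ≤ n * c := mul_le_mul_of_nonneg_left (by linarith) hn0.le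
    linarith
  have A4 : 1024 * (q : ℝ) ^ 3 * N ^ 2 * Real.exp M ≤ 4 ^ q := by
    refine (Real.log_le_log_iff (by positivity) (by positivity)).1 ?_
    rw [Real.log_mul (by positivity) (by positivity), Real.log_mul (by positivity) (by positivity),
      Real.log_mul (by norm_num) (by positivity), Real.log_pow, Real.log_pow, Real.log_pow,
      Real.log_exp, hlogN, show (1024 : ℝ) = 2 ^ 10 by norm_num,
      show (4 : ℝ) = 2 ^ 2 by norm_num, Real.log_pow, Real.log_pow, ← hc]
    push_cast
    have : n * 0.69314718 ≤ n * c := mul_le_mul_of_nonneg_left (by linarith) hn0.le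
    linarith
  have H1 : 16 * q * N ≤ 2 ^ q := by
    have h : (16 : ℝ) * q * N ≤ 2 ^ q := by
      refine le_trans ?_ A2
      have : (16 : ℝ) * q * N ≤ (256 * (q : ℝ) * N) * 1 := by
        rw [mul_one]
        refine mul_le_mul_of_nonneg_right ?_ hN0.le
        exact mul_le_mul_of_nonneg_right (by norm_num) hq0.le
      exact this.trans (mul_le_mul_of_nonneg_left hZ (by positivity))
    exact_mod_cast h
  have H0 : 2 * q + 100 ≤ N := by
    have h1 : (32 * (q : ℝ) ^ 2) ^ 2 ≤ (N : ℝ) ^ 2 := by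
      refine le_trans ?_ A1
      have : (32 * (q : ℝ) ^ 2) ^ 2 = (1024 * (q : ℝ) ^ 4) * 1 := by ring
      rw [this]
      exact mul_le_mul_of_nonneg_left (one_le_pow₀ hZ) (by positivity)
    have h2 : 32 * (q : ℝ) ^ 2 ≤ N := by
      exact (pow_le_pow_iff_left₀ (by positivity) hN0.le (by norm_num)).1 h1
    have h3 : 32 * q ^ 2 ≤ N := by exact_mod_cast h2
    nlinarith
  exact ⟨by omega, crit (by omega) H0 H1 hZ hS A1 A2 A3 A4⟩

end Pool.Agent.H30CG
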