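import Pool.Agent.H30CG.LogB

/-!
The numerical inequalities for the lower bound, for all `N ≥ 2 ^ 32`.
-/

set_option autoImplicit false

namespace Pool.Agent.H30CG

open Pool.Agent.Y812.CG

lemma log_fact_le' (q : ℕ) (hq : 1 ≤ q) :
    Real.log (q.factorial : ℝ) ≤ 1 + Real.log q / 2 + q * Real.log q - q := by
  have h1 : Stirling.stirlingSeq q ≤ Stirling.stirlingSeq 1 := by
    have h := Stirling.stirlingSeq'_antitone (show 0 ≤ q - 1 by omega)
    simp only [Function.comp_apply, Nat.succ_eq_add_one] at h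
    rw [show q - 1 + 1 = q by omega] at h
    exact h
  have hq0 : (0 : ℝ) < q := by exact_mod_cast hq
  have hf : (0 : ℝ) < (q.factorial : ℝ) := by exact_mod_cast Nat.factorial_pos q
  have h2 := Real.log_le_log (by unfold Stirling.stirlingSeq; positivity) h1
  rw [Stirling.stirlingSeq_one] at h2
  unfold Stirling.stirlingSeq at h2
  rw [Real.log_div hf.ne' (by positivity), Real.log_mul (by positivity) (by positivity),
    Real.log_sqrt (by positivity), Real.log_mul (by norm_num) hq0.ne', Real.log_pow,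
    Real.log_div hq0.ne' (Real.exp_pos 1).ne', Real.log_exp, Real.log_div (Real.exp_pos 1).ne'
    (by positivity), Real.log_exp, Real.log_sqrt (by norm_num)] at h2
  linarith

variable {N : ℕ}

lemma log_choose_ge' {q : ℕ} (hq : 1 ≤ q) (hqN : 2 * q ^ 2 ≤ N) :
    q * Real.log N - Real.log 2 - (1 + Real.log q / 2 + q * Real.log q - q) ≤
      Real.log (N.choose q : ℝ) := by
  have hN0 : 0 < N := by
    have : 0 < 2 * q ^ 2 := by positivity
    omega
  have hNr : (0 : ℝ) < N := by exact_mod_cast hN0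
  have hqle : q ≤ N := by nlinarith
  have h1 : (N + 1 - q) ^ q ≤ q.factorial * N.choose q := by
    rw [← Nat.descFactorial_eq_factorial_mul_choose]
    exact Nat.pow_sub_le_descFactorial N q
  have h2 : (((N + 1 - q : ℕ) : ℝ)) ^ q ≤ (q.factorial : ℝ) * (N.choose q : ℝ) := by
    exact_mod_cast h1
  have h3 : ((N + 1 - q : ℕ) : ℝ) = N * (1 + (-(((q : ℝ) - 1) / N))) := by
    rw [Nat.cast_sub (by omega)]
    push_cast
    field_simp
    ring
  have hq1 : (1 : ℝ) ≤ q := by exact_mod_cast hq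
  have hqN' : 2 * (q : ℝ) ^ 2 ≤ N := by exact_mod_cast hqN
  have ha : ((q : ℝ) - 1) / N ≤ 1 := by
    rw [div_le_one hNr]; nlinarith
  have h4 := one_add_mul_le_pow (a := -(((q : ℝ) - 1) / N)) (by linarith) q
  have h5 : (1 : ℝ) / 2 ≤ 1 + q * (-(((q : ℝ) - 1) / N)) := by
    have : (q : ℝ) * (((q : ℝ) - 1) / N) ≤ 1 / 2 := by
      rw [← mul_div_assoc, div_le_iff₀ hNr]; nlinarith
    linarith
  have h6 : (N : ℝ) ^ q * (1 / 2) ≤ (q.factorial : ℝ) * (N.choose q : ℝ) := by
    refine le_trans ?_ h2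
    rw [h3, mul_pow]
    exact mul_le_mul_of_nonneg_left (h5.trans h4) (by positivity)
  have hf : (0 : ℝ) < (q.factorial : ℝ) := by exact_mod_cast Nat.factorial_pos q
  have hch : (0 : ℝ) < (N.choose q : ℝ) := by exact_mod_cast Nat.choose_pos hqle
  have h7 := Real.log_le_log (by positivity) h6
  rw [Real.log_mul (by positivity) (by norm_num), Real.log_mul hf.ne' hch.ne', Real.log_pow,
    one_div, Real.log_inv] at h7
  have h8 := log_fact_le' q hq
  linarith

theorem low_facts (hN : 2 ^ 32 ≤ N) {q : ℕ} (h1 : (q : ℝ) ≤ f N - eta N)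
    (h2 : f N - eta N - 1 < q) :
    5 ≤ q ∧ 2 * q + 100 ≤ N ∧ 16 * q * N ≤ 2 ^ q ∧ 5 * (q - 1) ^ 6 ≤ 27 * N ∧
      134 * q ^ 9 ≤ N ^ 2 ∧ 4 * N ^ 2 * q * 2 ^ (q.choose 2) ≤ N.choose q := by
  obtain ⟨n, l, hn, hlogN, hl, hl1, hl3, hf, he⟩ := base32 hN
  have c1 := Real.log_two_gt_d9
  have c2 := Real.log_two_lt_d9
  set c := Real.log 2 with hc
  have hc0 : 0 < c := by linarith
  have hl2 : l ≤ n * 0.10831 := by linarith
  have hl0 : 0 < l := by linarith
  have hn0 : 0 < n := by linarith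
  have hNr : (2 : ℝ) ^ 32 ≤ (N : ℝ) := by exact_mod_cast hN
  have hN0 : (0 : ℝ) < N := lt_of_lt_of_le (by positivity) hNr
  -- `w = eta c / 2`
  obtain ⟨w, hw⟩ : ∃ w : ℝ, 2 * w = eta N * c := ⟨eta N * c / 2, by ring⟩
  have hwn : 2 * n * w = 3 * l := by rw [← he, ← hw]; ring
  have hw0 : 0 < w := by
    by_contra hneg
    have : n * w ≤ 0 := mul_nonpos_of_nonneg_of_nonpos hn0.le (not_lt.1 hneg)
    linarith
  have hw1 : w ≤ 0.1625 := by
    have : n * w ≤ n * 0.1625 := by linarith
    exact le_of_mul_le_mul_left this hn0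
  have q1 : (q : ℝ) * c ≤ 2 * n * c - 2 * l + 2 - 3 * c - 2 * w := by nlinarith
  have q2 : 2 * n * c - 2 * l + 2 - 4 * c - 2 * w < (q : ℝ) * c := by nlinarith
  have hnc : n * 0.69314718 ≤ n * c := mul_le_mul_of_nonneg_left (by linarith) hn0.le
  -- simple bounds for `q`
  have q3 : (q : ℝ) ≤ 2 * n - 10.114 := by
    have : (q : ℝ) * c ≤ (2 * n - 10.114) * c := by linarith
    exact le_of_mul_le_mul_right this hc0
  have q4 : (50 : ℝ) ≤ q := by
    have : (50 : ℝ) * c ≤ q * c := by linarith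
    exact le_of_mul_le_mul_right this hc0
  have hq50 : 50 ≤ q := by exact_mod_cast q4
  have hq0 : (0 : ℝ) < q := by linarith
  have lq : Real.log (q : ℝ) ≤ l + c := by
    have : Real.log (q : ℝ) ≤ Real.log (n * 2) :=
      Real.log_le_log (by positivity) (by linarith)
    rw [Real.log_mul (by linarith) (by norm_num), ← hl] at this
    exact this
  have H2 : 5 * (q - 1) ^ 6 ≤ 27 * N := by
    have e1 : ((q - 1 : ℕ) : ℝ) = (q : ℝ) - 1 := by
      rw [Nat.cast_sub (by omega)]; norm_num
    have hx0 : (0 : ℝ) < (q : ℝ) - 1 := by linarith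
    have hx1 : (q : ℝ) - 1 ≤ 2 * n - 11.114 := by linarith
    -- the logarithm of `q - 1`
    have h3 : Real.log ((q : ℝ) - 1) ≤ 23 / 4 * c - 1 + (0.037168 * n - 0.2065) := by
      obtain ⟨t, ht⟩ : ∃ t : ℝ, t = 53.81 := ⟨_, rfl⟩
      have ht0 : 0 < t := by rw [ht]; norm_num
      have h := Real.log_le_sub_one_of_pos (show 0 < ((q : ℝ) - 1) / t by positivity)
      rw [Real.log_div hx0.ne' ht0.ne'] at h
      have h4 := Real.log_le_log (by positivity) (show t ^ 4 ≤ 2 ^ 23 by rw [ht]; norm_num)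
      rw [Real.log_pow, Real.log_pow, ← hc] at h4
      push_cast at h4
      have h6 : ((q : ℝ) - 1) / t ≤ 0.037168 * n - 0.2065 := by
        rw [div_le_iff₀ ht0, ht]
        linarith
      linarith
    obtain ⟨u, hu⟩ : ∃ u : ℝ, u = 5.4 := ⟨_, rfl⟩
    have hu0 : 0 < u := by rw [hu]; norm_num
    have h5 := Real.log_le_log (by positivity) (show (2 : ℝ) ^ 17 ≤ u ^ 7 by rw [hu]; norm_num)
    rw [Real.log_pow, Real.log_pow, ← hc] at h5
    push_cast at h5
    have h : ((q : ℝ) - 1) ^ 6 ≤ 5.4 * (N : ℝ) := by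
      rw [← hu]
      refine (Real.log_le_log_iff (by positivity) (by positivity)).1 ?_
      rw [Real.log_pow, Real.log_mul hu0.ne' (by positivity), hlogN]
      push_cast
      linarith
    have h' : (5 : ℝ) * ((q - 1 : ℕ) : ℝ) ^ 6 ≤ 27 * N := by
      rw [e1]
      linarith
    exact_mod_cast h'
  have H4 : 134 * q ^ 9 ≤ N ^ 2 := by
    have h3 : Real.log (q : ℝ) ≤ 6 * c - 1 + (2 * n - 10.114) / 64 := by
      have h := Real.log_le_sub_one_of_pos (show 0 < (q : ℝ) / 64 by positivity)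
      have h64 : Real.log 64 = 6 * c := by
        rw [show (64 : ℝ) = 2 ^ 6 by norm_num, Real.log_pow, ← hc]; norm_num
      rw [Real.log_div (by positivity) (by norm_num), h64] at h
      linarith
    have h : (134 : ℝ) * (q : ℝ) ^ 9 ≤ (N : ℝ) ^ 2 := by
      have h8 : (134 : ℝ) * (q : ℝ) ^ 9 ≤ 256 * (q : ℝ) ^ 9 :=
        mul_le_mul_of_nonneg_right (by norm_num) (by positivity)
      refine h8.trans ((Real.log_le_log_iff (by positivity) (by positivity)).1 ?_)
      rw [Real.log_mul (by norm_num) (by positivity), Real.log_pow, Real.log_pow, hlogN,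
        show (256 : ℝ) = 2 ^ 8 by norm_num, Real.log_pow, ← hc]
      push_cast
      linarith
    exact_mod_cast h
  have hq4 : q ^ 4 ≤ N := by
    have h3 : (q ^ 4) ^ 2 ≤ N ^ 2 := by
      refine le_trans ?_ H4
      have e : 134 * q ^ 9 = (134 * q) * (q ^ 4) ^ 2 := by ring
      rw [e]
      exact Nat.le_mul_of_pos_left _ (by omega)
    exact (Nat.pow_le_pow_iff_left (by norm_num)).1 h3
  have hq2 : q * q ≤ q ^ 4 := by
    calc q * q = q ^ 2 := by ring
      _ ≤ q ^ 4 := Nat.pow_le_pow_right (by omega) (by norm_num)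
  have H0 : 2 * q + 100 ≤ N := by
    have : 50 * q ≤ q * q := Nat.mul_le_mul_right _ hq50
    omega
  have H1 : 16 * q * N ≤ 2 ^ q := by
    have h : (16 : ℝ) * q * N ≤ 2 ^ q := by
      refine (Real.log_le_log_iff (by positivity) (by positivity)).1 ?_
      rw [Real.log_mul (by positivity) (by positivity), Real.log_mul (by norm_num) (by positivity),
        Real.log_pow, hlogN, show (16 : ℝ) = 2 ^ 4 by norm_num, Real.log_pow, ← hc]
      push_cast
      linarith
    exact_mod_cast h
  refine ⟨by omega, H0, H1, H2, H4, ?_⟩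
  have hqN : 2 * q ^ 2 ≤ N := by
    have h3 : 2 * q ^ 2 ≤ q ^ 4 := by
      calc 2 * q ^ 2 ≤ (q * q) * q ^ 2 := Nat.mul_le_mul_right _ (by nlinarith)
        _ = q ^ 4 := by ring
    omega
  have hqle : q ≤ N := by omega
  have hch : (0 : ℝ) < (N.choose q : ℝ) := by exact_mod_cast Nat.choose_pos hqle
  have hlow := log_choose_ge' (N := N) (q := q) (by omega) hqN
  rw [hlogN] at hlow
  have h : (4 : ℝ) * N ^ 2 * q * 2 ^ (q.choose 2) ≤ (N.choose q : ℝ) := by
    refine (Real.log_le_log_iff (by positivity) hch).1 ?_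
    rw [Real.log_mul (by positivity) (by positivity), Real.log_mul (by positivity) (by positivity),
      Real.log_mul (by norm_num) (by positivity), Real.log_pow, Real.log_pow, hlogN,
      Nat.cast_choose_two, show (4 : ℝ) = 2 ^ 2 by norm_num, Real.log_pow, ← hc]
    refine le_trans ?_ hlow
    -- the defect `D = 2 n - q`
    obtain ⟨D, hD⟩ : ∃ D : ℝ, D = 2 * n - q := ⟨_, rfl⟩
    have hD1 : 2 * l - 2 + 3 * c + 2 * w ≤ D * c := by rw [hD]; linarith
    have hD2 : D * c < 2 * l - 2 + 4 * c + 2 * w := by rw [hD]; linarith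
    have hD0 : 0 ≤ D := by rw [hD]; linarith
    have hx : D / (2 * n) ≤ l + c - Real.log q := by
      have h := Real.log_le_sub_one_of_pos (show 0 < (q : ℝ) / (n * 2) by positivity)
      rw [Real.log_div hq0.ne' (by positivity), Real.log_mul (by linarith) (by norm_num), ← hl,
        ← hc] at h
      have e : D / (2 * n) = 1 - (q : ℝ) / (n * 2) := by rw [hD]; field_simp
      rw [e]
      linarith
    have hb : c + w + D / (2 * n) ≤ n * c - Real.log q + 1 - ((q : ℝ) - 1) / 2 * c := by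
      have e : (q : ℝ) = 2 * n - D := by rw [hD]; ring
      have e2 : ((q : ℝ) - 1) / 2 * c = n * c - D * c / 2 - c / 2 := by rw [e]; ring
      rw [e2]
      linarith
    have hb2 := mul_le_mul_of_nonneg_left hb hq0.le
    have hD3 : D / (2 * n) ≤ 0.1811 := by
      have hD4 : D ≤ n * 0.3622 := by
        have : D * c ≤ (n * 0.3622) * c := by linarith
        exact le_of_mul_le_mul_right this hc0
      rw [div_le_iff₀ (by positivity)]; linarith
    have hD5 : D ≤ 2.8854 * l + 1.6 := by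
      have h5 : 0.69314718 * (2.8854 * l + 1.6) ≤ c * (2.8854 * l + 1.6) :=
        mul_le_mul_of_nonneg_right (by linarith) (by linarith)
      have : c * D ≤ c * (2.8854 * l + 1.6) := by linarith
      exact le_of_mul_le_mul_left this hc0
    have hb3 : 2 * n * c + 3 * l - 0.0368 * D ≤ (q : ℝ) * (c + w + D / (2 * n)) := by
      have e : (q : ℝ) = 2 * n - D := by rw [hD]; ring
      have e2 : (q : ℝ) * (c + w + D / (2 * n)) =
          2 * n * c + 2 * n * w + D * (1 - (c + w + D / (2 * n))) := by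
        rw [e]; field_simp; ring
      rw [e2, hwn]
      have := mul_le_mul_of_nonneg_left
        (show -0.0368 ≤ 1 - (c + w + D / (2 * n)) by linarith) hD0
      linarith
    have e8 : (q : ℝ) * (n * c - Real.log q + 1 - ((q : ℝ) - 1) / 2 * c) =
        q * (n * c) - q * Real.log q + q - (q : ℝ) * (q - 1) / 2 * c := by ring
    rw [e8] at hb2
    push_cast
    linarith
  exact_mod_cast h

end Pool.Agent.H30CG
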