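import Pool.Graph.R_seed8.Y812.CG.Game
import Pool.Agent.H30CG.LogB

/-!
The lower bound: the second moment criterion with better constants, and the numerical inequalities
for all `N ≥ 2 ^ 32`.
-/

set_option autoImplicit false

namespace Pool.Agent.H30CG

open Finset Pool.Agent.Helper40.Game Pool.Agent.Helper40.SM Pool.Agent.Helper40.K9
  Pool.Agent.Helper40.CF Pool.Agent.Y812.CG

/-- first and second moments give both kinds of wins -/
theorem forces' {N q : ℕ} [Inhabited (Sym2 (Fin N))] (hN : 2 ≤ N) (hq : q ≤ N)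
    (h3 : 2 * N ^ 2 * ∑ s ∈ (range (q + 1)).filter (fun s => 2 ≤ s.choose 2), g N q s ≤
      15 * N.choose q)
    (h2 : 2048 * ∑ s ∈ (range (q + 1)).filter (fun s => 1 ≤ s.choose 2), g N q s ≤ N.choose q) :
    (∃ σ : List (Sym2 (Fin N)) → Sym2 (Fin N), Legal (EE N) 0 σ ∧
      ∀ h : List (Sym2 (Fin N)), h.Nodup → (∀ e ∈ h, e ∈ EE N) → (∀ e ∈ EE N, e ∈ h) →
      Cons σ 0 h → ∃ i ∈ fam N q, edg i ⊆ cls 0 h) ∧
    (∃ σ : List (Sym2 (Fin N)) → Sym2 (Fin N), Legal (EE N) 1 σ ∧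
      ∀ h : List (Sym2 (Fin N)), h.Nodup → (∀ e ∈ h, e ∈ EE N) → (∀ e ∈ EE N, e ∈ h) →
      Cons σ 1 h → ∃ i ∈ fam N q, edg i ⊆ cls 0 h) := by
  have hNr : (0 : ℝ) < N := by exact_mod_cast (show 0 < N by omega)
  have hC : (0 : ℝ) < (N.choose q : ℝ) := by exact_mod_cast Nat.choose_pos hq
  set T : ℝ := T0 (fam N q) edg with hTdef
  have hT : T = (N.choose q : ℝ) / 2 ^ (q.choose 2) := T0_clique q
  have hTpos : 0 < T := by rw [hT]; positivity
  have hE0 : 0 < (EE N).card := by rw [card_EE]; exact Nat.choose_pos hN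
  have hEne : (EE N).Nonempty := Finset.card_pos.1 hE0
  have hEr : (0 : ℝ) < ((EE N).card : ℝ) := by exact_mod_cast hE0
  have hE2 : 2 * ((EE N).card : ℝ) ≤ (N : ℝ) ^ 2 := by
    rw [card_EE]
    exact_mod_cast choose2_le N
  -- second moments
  have hU : ∀ r, U0 (fam N q) edg r ≤ T * (((∑ s ∈ (range (q + 1)).filter
      (fun s => r ≤ s.choose 2), g N q s : ℕ) : ℝ) / 2 ^ (q.choose 2)) := by
    intro r
    have h := U0_clique (N := N) q r
    rw [← hT] at h
    refine h.trans (le_of_eq ?_)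
    congr 2
    push_cast
    refine Finset.sum_congr rfl (fun s _ => ?_)
    unfold g
    push_cast
    ring
  have hU3 : 2 * (N : ℝ) ^ 2 * U0 (fam N q) edg 2 ≤ 15 * (T * T) := by
    have h3' : 2 * (N : ℝ) ^ 2 * ((∑ s ∈ (range (q + 1)).filter (fun s => 2 ≤ s.choose 2),
        g N q s : ℕ) : ℝ) ≤ 15 * (N.choose q : ℝ) := by exact_mod_cast h3
    calc 2 * (N : ℝ) ^ 2 * U0 (fam N q) edg 2 ≤ 2 * (N : ℝ) ^ 2 * (T * (((∑ s ∈
          (range (q + 1)).filter (fun s => 2 ≤ s.choose 2), g N q s : ℕ) : ℝ) /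
          2 ^ (q.choose 2))) := mul_le_mul_of_nonneg_left (hU 2) (by positivity)
      _ = T * ((2 * (N : ℝ) ^ 2 * ((∑ s ∈ (range (q + 1)).filter
          (fun s => 2 ≤ s.choose 2), g N q s : ℕ) : ℝ)) / 2 ^ (q.choose 2)) := by ring
      _ ≤ T * ((15 * (N.choose q : ℝ)) / 2 ^ (q.choose 2)) :=
          mul_le_mul_of_nonneg_left (div_le_div_of_nonneg_right h3' (by positivity)) hTpos.le
      _ = 15 * (T * T) := by rw [mul_div_assoc, ← hT]; ring
  have hU2 : 2048 * U0 (fam N q) edg 1 ≤ T * T := by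
    have h2' : 2048 * ((∑ s ∈ (range (q + 1)).filter (fun s => 1 ≤ s.choose 2),
        g N q s : ℕ) : ℝ) ≤ (N.choose q : ℝ) := by exact_mod_cast h2
    calc 2048 * U0 (fam N q) edg 1 ≤ 2048 * (T * (((∑ s ∈ (range (q + 1)).filter
          (fun s => 1 ≤ s.choose 2), g N q s : ℕ) : ℝ) / 2 ^ (q.choose 2))) :=
          mul_le_mul_of_nonneg_left (hU 1) (by norm_num)
      _ = T * ((2048 * ((∑ s ∈ (range (q + 1)).filter
          (fun s => 1 ≤ s.choose 2), g N q s : ℕ) : ℝ)) / 2 ^ (q.choose 2)) := by ring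
      _ ≤ T * ((N.choose q : ℝ) / 2 ^ (q.choose 2)) :=
          mul_le_mul_of_nonneg_left (div_le_div_of_nonneg_right h2' (by positivity)) hTpos.le
      _ = T * T := by rw [← hT]
  have hU0 : 0 ≤ U0 (fam N q) edg 2 := by
    unfold U0
    exact Finset.sum_nonneg (fun p _ => by positivity)
  -- the parameter `l = |E| / (16 T)`
  have hl : 0 < ((EE N).card : ℝ) / (16 * T) := by positivity
  have e1 : ((EE N).card : ℝ) / (32 * (((EE N).card : ℝ) / (16 * T))) = T / 2 := by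
    field_simp; ring
  have e2 : ((EE N).card : ℝ) / (16 * T) * U0 (fam N q) edg 2 ≤ 15 / 64 * T := by
    rw [div_mul_eq_mul_div, div_le_iff₀ (by positivity)]
    have : 4 * (((EE N).card : ℝ) * U0 (fam N q) edg 2) ≤ 15 * (T * T) := by
      calc 4 * (((EE N).card : ℝ) * U0 (fam N q) edg 2) =
            2 * ((2 * ((EE N).card : ℝ)) * U0 (fam N q) edg 2) := by ring
        _ ≤ 2 * ((N : ℝ) ^ 2 * U0 (fam N q) edg 2) :=
            mul_le_mul_of_nonneg_left (mul_le_mul_of_nonneg_right hE2 hU0) (by norm_num)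
        _ = 2 * (N : ℝ) ^ 2 * U0 (fam N q) edg 2 := by ring
        _ ≤ _ := hU3
    linarith
  constructor
  · refine maker_wins (EE N) (fam N q) edg (fun i _ => edg_subset_EE i) hl ?_
    rw [e1, ← hTdef]
    linarith
  · refine forcer_wins (EE N) (fam N q) edg (fun i _ => edg_subset_EE i) hEne hl
      (m := 8 / T) (by positivity) ?_
    have e3 : 2 * (8 / T) * U0 (fam N q) edg 1 ≤ T / 128 := by
      have h8 : U0 (fam N q) edg 1 ≤ T * T / 2048 := by linarith
      calc 2 * (8 / T) * U0 (fam N q) edg 1 ≤ 2 * (8 / T) * (T * T / 2048) :=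
            mul_le_mul_of_nonneg_left h8 (by positivity)
        _ = T / 128 := by field_simp; ring
    have e4 : 1 / (8 * (8 / T)) = T / 64 := by field_simp; ring
    have e5 : 2 * (((EE N).card : ℝ) / (16 * T)) * U0 (fam N q) edg 2 =
        2 * (((EE N).card : ℝ) / (16 * T) * U0 (fam N q) edg 2) := by ring
    rw [e1, e4, e5, ← hTdef]
    linarith

variable {N q : ℕ}

/-- the weights decrease and then increase on `4, ..., q` -/
lemma g_le4 (hN : 2 * q + 100 ≤ N) (H1 : 16 * q * N ≤ 2 ^ q) {s : ℕ} (hs : 4 ≤ s)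
    (hsq : s ≤ q) : g N q s ≤ g N q 4 + g N q q := by
  have up : ∀ t, t < q → P N q t → g N q t ≤ g N q (t + 1) := by
    intro t ht hP
    have h := g_succ (N := N) ht (by omega)
    have hpos : 0 < (t + 1) * (N - 2 * q + t + 1) := by positivity
    refine Nat.le_of_mul_le_mul_right ?_ hpos
    rw [h]
    exact Nat.mul_le_mul_left _ hP
  have down : ∀ t, t < q → ¬ P N q t → g N q (t + 1) ≤ g N q t := by
    intro t ht hP
    have h := g_succ (N := N) ht (by omega)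
    have hpos : 0 < (t + 1) * (N - 2 * q + t + 1) := by positivity
    refine Nat.le_of_mul_le_mul_right ?_ hpos
    rw [h]
    unfold P at hP
    exact Nat.mul_le_mul_left _ (not_le.1 hP).le
  rcases Nat.lt_or_ge s q with hlt | hge
  · by_cases hP : P N q s
    · have hU := P_up (by omega) hN H1 hP
      have : ∀ t, s ≤ t → t ≤ q → g N q s ≤ g N q t := by
        intro t hst
        induction t, hst using Nat.le_induction with
        | base => intro _; exact le_rfl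
        | succ t hst ih =>
          intro ht
          exact (ih (by omega)).trans (up t (by omega) (hU t hst (by omega)))
      exact (this q hsq le_rfl).trans (Nat.le_add_left _ _)
    · have hD : ∀ t, 4 ≤ t → t ≤ s → ¬ P N q t := fun t h3 hts hPt =>
        hP (P_up (by omega) hN H1 hPt s hts hlt)
      have : ∀ t, 4 ≤ t → t ≤ s → g N q t ≤ g N q 4 := by
        intro t h3
        induction t, h3 using Nat.le_induction with
        | base => intro _; exact le_rfl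
        | succ t h3 ih =>
          intro ht
          exact (down t (by omega) (hD t h3 (by omega))).trans (ih (by omega))
      exact (this s hs le_rfl).trans (Nat.le_add_right _ _)
  · have : s = q := le_antisymm hsq hge
    subst this
    exact Nat.le_add_left _ _

lemma G3_le (hq : 5 ≤ q) (hN : 2 * q + 100 ≤ N) (H1 : 16 * q * N ≤ 2 ^ q) :
    ∑ s ∈ (range (q + 1)).filter (fun s => 2 ≤ s.choose 2), g N q s ≤
      g N q 3 + q * (g N q 4 + g N q q) := by
  have hsub : (range (q + 1)).filter (fun s => 2 ≤ s.choose 2) ⊆ insert 3 (Ico 4 (q + 1)) := by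
    intro s hs
    rw [mem_filter, mem_range] at hs
    rw [mem_insert, mem_Ico]
    have hs3 : 3 ≤ s := by
      by_contra hlt
      have h : s = 0 ∨ s = 1 ∨ s = 2 := by omega
      rcases h with rfl | rfl | rfl <;> simp [Nat.choose] at hs
    omega
  have h1 : ∑ s ∈ Ico 4 (q + 1), g N q s ≤ q * (g N q 4 + g N q q) := by
    have : ∑ s ∈ Ico 4 (q + 1), g N q s ≤ ∑ s ∈ Ico 4 (q + 1), (g N q 4 + g N q q) := by
      refine Finset.sum_le_sum (fun s hs => ?_)
      rw [mem_Ico] at hs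
      exact g_le4 hN H1 hs.1 (by omega)
    refine this.trans ?_
    rw [Finset.sum_const, smul_eq_mul, Nat.card_Ico]
    exact Nat.mul_le_mul_right _ (by omega)
  refine (Finset.sum_le_sum_of_subset hsub).trans ?_
  rw [Finset.sum_insert]
  · omega
  · rw [mem_Ico]; omega

lemma G2_le : ∑ s ∈ (range (q + 1)).filter (fun s => 1 ≤ s.choose 2), g N q s ≤
      g N q 2 + ∑ s ∈ (range (q + 1)).filter (fun s => 2 ≤ s.choose 2), g N q s := by
  have hsub : (range (q + 1)).filter (fun s => 1 ≤ s.choose 2) ⊆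
      insert 2 ((range (q + 1)).filter (fun s => 2 ≤ s.choose 2)) := by
    intro s hs
    rw [mem_filter, mem_range] at hs
    rw [mem_insert, mem_filter, mem_range]
    by_cases h2 : s = 2
    · left; exact h2
    · right
      refine ⟨hs.1, ?_⟩
      have hs3 : 3 ≤ s := by
        by_contra hlt
        have h : s = 0 ∨ s = 1 := by omega
        rcases h with rfl | rfl <;> simp at hs
      calc 2 ≤ Nat.choose 3 2 := by decide
        _ ≤ s.choose 2 := Nat.choose_le_choose 2 hs3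
  refine (Finset.sum_le_sum_of_subset hsub).trans ?_
  rw [Finset.sum_insert]
  rw [mem_filter]
  rintro ⟨_, h⟩
  simp at h

/-- the weights of the pairs with three common vertices -/
lemma g3_sharp (hq : 3 ≤ q) (hN : 2 * q + 100 ≤ N) (hN2 : 30000 ≤ N)
    (H2 : 5 * (q - 1) ^ 6 ≤ 27 * N) :
    (N : ℝ) ^ 2 * g N q 3 ≤ 7.21 * N.choose q := by
  have hc := g_choose (N := N) (q := q) (s := 3) hq (by omega)
  have e8 : (2 : ℕ) ^ (Nat.choose 3 2) = 8 := by norm_num [Nat.choose]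
  rw [e8] at hc
  have hcR : (g N q 3 : ℝ) * N.choose 3 ≤ 8 * (q.choose 3 : ℝ) ^ 2 * N.choose q := by
    exact_mod_cast hc
  have hNr : (30000 : ℝ) ≤ N := by exact_mod_cast hN2
  have hN0 : (0 : ℝ) < N := by linarith
  have d1 : 6 * (N.choose 3 : ℝ) = N * (N - 1) * (N - 2) := by
    have h := Nat.descFactorial_eq_factorial_mul_choose N 3
    have h6 : Nat.factorial 3 = 6 := rfl
    rw [h6] at h
    obtain ⟨k, rfl⟩ : ∃ k, N = k + 3 := ⟨N - 3, by omega⟩
    have hd : (k + 3).descFactorial 3 = (k + 1) * ((k + 2) * (k + 3)) := by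
      simp [Nat.descFactorial]
    rw [hd] at h
    have h' : ((k : ℝ) + 1) * ((k + 2) * (k + 3)) = 6 * ((k + 3).choose 3 : ℝ) := by
      exact_mod_cast h
    rw [← h']
    push_cast
    ring
  have d2 : 6 * (q.choose 3 : ℝ) ≤ ((q - 1 : ℕ) : ℝ) ^ 3 := by
    have h := Nat.descFactorial_eq_factorial_mul_choose q 3
    have h6 : Nat.factorial 3 = 6 := rfl
    rw [h6] at h
    obtain ⟨k, rfl⟩ : ∃ k, q = k + 3 := ⟨q - 3, by omega⟩
    have hd : (k + 3).descFactorial 3 = (k + 1) * ((k + 2) * (k + 3)) := by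
      simp [Nat.descFactorial]
    rw [hd] at h
    have e : k + 3 - 1 = k + 2 := by omega
    rw [e]
    have h' : 6 * (k + 3).choose 3 ≤ (k + 2) ^ 3 := by
      rw [← h]
      nlinarith
    exact_mod_cast h'
  have H2R : 5 * ((q - 1 : ℕ) : ℝ) ^ 6 ≤ 27 * N := by exact_mod_cast H2
  have d3 : 36 * (q.choose 3 : ℝ) ^ 2 ≤ ((q - 1 : ℕ) : ℝ) ^ 6 := by
    calc 36 * (q.choose 3 : ℝ) ^ 2 = (6 * (q.choose 3 : ℝ)) ^ 2 := by ring
      _ ≤ (((q - 1 : ℕ) : ℝ) ^ 3) ^ 2 := pow_le_pow_left₀ (by positivity) d2 2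
      _ = _ := by ring
  have d4 : 5 * (36 * (q.choose 3 : ℝ) ^ 2) ≤ 27 * N := by linarith
  have d5 : 0.9999 * (N : ℝ) ^ 3 ≤ 6 * (N.choose 3 : ℝ) := by
    rw [d1]
    have : (N : ℝ) * (N - 1) * (N - 2) = N ^ 3 - 3 * N ^ 2 + 2 * N := by ring
    rw [this]
    have h1 : 30000 * (N : ℝ) ^ 2 ≤ N * N ^ 2 := mul_le_mul_of_nonneg_right hNr (by positivity)
    have h2 : (N : ℝ) * N ^ 2 = N ^ 3 := by ring
    rw [h2] at h1
    nlinarith
  have hCq : (0 : ℝ) ≤ N.choose q := Nat.cast_nonneg _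
  have hg : (0 : ℝ) ≤ g N q 3 := Nat.cast_nonneg _
  have key : 0.9999 * (N : ℝ) ^ 3 * g N q 3 ≤ 7.2 * N * N.choose q := by
    calc 0.9999 * (N : ℝ) ^ 3 * g N q 3 ≤ 6 * (N.choose 3 : ℝ) * g N q 3 :=
          mul_le_mul_of_nonneg_right d5 hg
      _ = 6 * ((g N q 3 : ℝ) * N.choose 3) := by ring
      _ ≤ 6 * (8 * (q.choose 3 : ℝ) ^ 2 * N.choose q) := by linarith
      _ = (4 / 15) * (5 * (36 * (q.choose 3 : ℝ) ^ 2)) * N.choose q := by ring
      _ ≤ (4 / 15) * (27 * N) * N.choose q :=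
          mul_le_mul_of_nonneg_right (mul_le_mul_of_nonneg_left d4 (by norm_num)) hCq
      _ = _ := by ring
  have key2 : (N : ℝ) * (0.9999 * ((N : ℝ) ^ 2 * (g N q 3 : ℝ))) ≤
      (N : ℝ) * (7.2 * (N.choose q : ℝ)) := by
    have e1 : (N : ℝ) * (0.9999 * ((N : ℝ) ^ 2 * (g N q 3 : ℝ))) =
        0.9999 * (N : ℝ) ^ 3 * (g N q 3 : ℝ) := by ring
    have e2 : (N : ℝ) * (7.2 * (N.choose q : ℝ)) = 7.2 * (N : ℝ) * (N.choose q : ℝ) := by ring
    rw [e1, e2]
    exact key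
  have key3 := le_of_mul_le_mul_left key2 hN0
  linarith

/-- the weights of the pairs with four common vertices -/
lemma g4_sharp (hq : 4 ≤ q) (hN : 2 * q + 100 ≤ N) (H4 : 134 * q ^ 9 ≤ N ^ 2) :
    (N : ℝ) ^ 2 * (q * g N q 4) ≤ 0.04 * N.choose q := by
  have hc := g_choose (N := N) (q := q) (s := 4) hq (by omega)
  have e8 : (2 : ℕ) ^ (Nat.choose 4 2) = 64 := by norm_num [Nat.choose]
  rw [e8] at hc
  have hcR : (g N q 4 : ℝ) * N.choose 4 ≤ 64 * (q.choose 4 : ℝ) ^ 2 * N.choose q := by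
    exact_mod_cast hc
  have hN0 : (0 : ℝ) < N := by exact_mod_cast (show 0 < N by omega)
  have d1 : (N : ℝ) ^ 4 ≤ 48 * (N.choose 4 : ℝ) := by
    have h := Nat.descFactorial_eq_factorial_mul_choose N 4
    have h6 : Nat.factorial 4 = 24 := rfl
    rw [h6] at h
    obtain ⟨k, rfl⟩ : ∃ k, N = k + 20 := ⟨N - 20, by omega⟩
    have hd : (k + 20).descFactorial 4 = (k + 17) * ((k + 18) * ((k + 19) * (k + 20))) := by
      simp [Nat.descFactorial]
    rw [hd] at h
    have h' : (k + 20) ^ 4 ≤ 48 * (k + 20).choose 4 := by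
      have e : 48 * (k + 20).choose 4 = 2 * ((k + 17) * ((k + 18) * ((k + 19) * (k + 20)))) := by
        rw [h]; ring
      rw [e]
      have : (k + 20) ^ 3 ≤ 2 * ((k + 17) * ((k + 18) * (k + 19))) := by
        have e3 : 2 * ((k + 17) * ((k + 18) * (k + 19))) =
            (k + 20) ^ 3 + (k ^ 3 + 48 * k ^ 2 + 742 * k + 3628) := by ring
        rw [e3]
        exact Nat.le_add_right _ _
      calc (k + 20) ^ 4 = (k + 20) ^ 3 * (k + 20) := by ring
        _ ≤ 2 * ((k + 17) * ((k + 18) * (k + 19))) * (k + 20) := Nat.mul_le_mul_right _ this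
        _ = _ := by ring
    exact_mod_cast h'
  have d2 : 24 * (q.choose 4 : ℝ) ≤ (q : ℝ) ^ 4 := by
    have h := Nat.choose_le_pow_div 4 q (α := ℝ)
    have h6 : ((Nat.factorial 4 : ℕ) : ℝ) = 24 := by norm_num [Nat.factorial]
    rw [h6, le_div_iff₀ (by norm_num)] at h
    linarith
  have d3 : 576 * (q.choose 4 : ℝ) ^ 2 ≤ (q : ℝ) ^ 8 := by
    calc 576 * (q.choose 4 : ℝ) ^ 2 = (24 * (q.choose 4 : ℝ)) ^ 2 := by ring
      _ ≤ ((q : ℝ) ^ 4) ^ 2 := pow_le_pow_left₀ (by positivity) d2 2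
      _ = _ := by ring
  have H4R : 134 * (q : ℝ) ^ 9 ≤ N ^ 2 := by exact_mod_cast H4
  have hCq : (0 : ℝ) ≤ N.choose q := Nat.cast_nonneg _
  have hg : (0 : ℝ) ≤ g N q 4 := Nat.cast_nonneg _
  have hq0 : (0 : ℝ) ≤ q := Nat.cast_nonneg _
  have key : (N : ℝ) ^ 4 * (q * g N q 4) ≤ 0.04 * N ^ 2 * N.choose q := by
    calc (N : ℝ) ^ 4 * (q * g N q 4) ≤ 48 * (N.choose 4 : ℝ) * (q * g N q 4) :=
          mul_le_mul_of_nonneg_right d1 (by positivity)
      _ = 48 * q * ((g N q 4 : ℝ) * N.choose 4) := by ring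
      _ ≤ 48 * q * (64 * (q.choose 4 : ℝ) ^ 2 * N.choose q) :=
          mul_le_mul_of_nonneg_left hcR (by positivity)
      _ = (16 / 3) * q * (576 * (q.choose 4 : ℝ) ^ 2) * N.choose q := by ring
      _ ≤ (16 / 3) * q * ((q : ℝ) ^ 8) * N.choose q :=
          mul_le_mul_of_nonneg_right (mul_le_mul_of_nonneg_left d3 (by positivity)) hCq
      _ = (16 / 402) * (134 * (q : ℝ) ^ 9) * N.choose q := by ring
      _ ≤ (16 / 402) * N ^ 2 * N.choose q :=
          mul_le_mul_of_nonneg_right (mul_le_mul_of_nonneg_left H4R (by norm_num)) hCq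
      _ ≤ 0.04 * N ^ 2 * N.choose q := by
          refine mul_le_mul_of_nonneg_right ?_ hCq
          exact mul_le_mul_of_nonneg_right (by norm_num) (by positivity)
  have key2 : (N : ℝ) ^ 2 * ((N : ℝ) ^ 2 * (q * g N q 4)) ≤ N ^ 2 * (0.04 * N.choose q) := by
    calc (N : ℝ) ^ 2 * ((N : ℝ) ^ 2 * (q * g N q 4)) = (N : ℝ) ^ 4 * (q * g N q 4) := by ring
      _ ≤ _ := key
      _ = _ := by ring
  exact le_of_mul_le_mul_left key2 (by positivity)

/-- the criterion for the lower bound -/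
theorem crit_low [Inhabited (Sym2 (Fin N))] (hq : 5 ≤ q) (hN : 2 * q + 100 ≤ N)
    (hN2 : 30000 ≤ N) (H1 : 16 * q * N ≤ 2 ^ q) (H2 : 5 * (q - 1) ^ 6 ≤ 27 * N)
    (H4 : 134 * q ^ 9 ≤ N ^ 2) (H3 : 4 * N ^ 2 * q * 2 ^ (q.choose 2) ≤ N.choose q) :
    (∃ σ : List (Sym2 (Fin N)) → Sym2 (Fin N), Legal (EE N) 0 σ ∧
      ∀ h : List (Sym2 (Fin N)), h.Nodup → (∀ e ∈ h, e ∈ EE N) → (∀ e ∈ EE N, e ∈ h) →
      Cons σ 0 h → ∃ i ∈ fam N q, edg i ⊆ cls 0 h) ∧
    (∃ σ : List (Sym2 (Fin N)) → Sym2 (Fin N), Legal (EE N) 1 σ ∧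
      ∀ h : List (Sym2 (Fin N)), h.Nodup → (∀ e ∈ h, e ∈ EE N) → (∀ e ∈ EE N, e ∈ h) →
      Cons σ 1 h → ∃ i ∈ fam N q, edg i ⊆ cls 0 h) := by
  have k3 := g3_sharp (by omega) hN hN2 H2
  have k4 := g4_sharp (by omega) hN H4
  have kq : (N : ℝ) ^ 2 * (q * g N q q) ≤ 0.25 * N.choose q := by
    rw [g_top]
    have : 4 * (N : ℝ) ^ 2 * q * 2 ^ (q.choose 2) ≤ N.choose q := by exact_mod_cast H3
    push_cast
    linarith
  have hG3 : 2 * N ^ 2 * ∑ s ∈ (range (q + 1)).filter (fun s => 2 ≤ s.choose 2), g N q s ≤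
      15 * N.choose q := by
    have h := G3_le hq hN H1
    have h' : ((∑ s ∈ (range (q + 1)).filter (fun s => 2 ≤ s.choose 2), g N q s : ℕ) : ℝ) ≤
        g N q 3 + q * (g N q 4 + g N q q) := by exact_mod_cast h
    have h2 : 2 * (N : ℝ) ^ 2 * ((∑ s ∈ (range (q + 1)).filter (fun s => 2 ≤ s.choose 2),
        g N q s : ℕ) : ℝ) ≤ 15 * N.choose q := by
      calc 2 * (N : ℝ) ^ 2 * ((∑ s ∈ (range (q + 1)).filter (fun s => 2 ≤ s.choose 2),
            g N q s : ℕ) : ℝ) ≤ 2 * (N : ℝ) ^ 2 * (g N q 3 + q * (g N q 4 + g N q q)) :=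
            mul_le_mul_of_nonneg_left h' (by positivity)
        _ = 2 * ((N : ℝ) ^ 2 * g N q 3 + (N : ℝ) ^ 2 * (q * g N q 4) +
            (N : ℝ) ^ 2 * (q * g N q q)) := by ring
        _ ≤ _ := by linarith
    exact_mod_cast h2
  refine forces' (by omega) (by omega) hG3 ?_
  have h2 := g2_le (N := N) (q := q) (by omega) hN
  have hN0 : 0 < N ^ 2 := by positivity
  have e1 : 4096 * g N q 2 ≤ N.choose q := by
    refine Nat.le_of_mul_le_mul_right ?_ hN0
    have h8 : 8192 * q ^ 4 ≤ N ^ 2 := by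
      refine le_trans ?_ H4
      have : q ^ 9 = q ^ 5 * q ^ 4 := by ring
      rw [this, ← mul_assoc]
      refine Nat.mul_le_mul_right _ ?_
      calc 8192 ≤ 134 * 5 ^ 5 := by norm_num
        _ ≤ 134 * q ^ 5 := Nat.mul_le_mul_left _ (Nat.pow_le_pow_left hq 5)
    calc 4096 * g N q 2 * N ^ 2 = 4096 * (g N q 2 * N ^ 2) := by ring
      _ ≤ 4096 * (2 * q ^ 4 * N.choose q) := Nat.mul_le_mul_left _ h2
      _ = 8192 * q ^ 4 * N.choose q := by ring
      _ ≤ N ^ 2 * N.choose q := Nat.mul_le_mul_right _ h8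
      _ = _ := by ring
  have e2 : 4096 * ∑ s ∈ (range (q + 1)).filter (fun s => 2 ≤ s.choose 2), g N q s ≤
      N.choose q := by
    have h15 : 15 * (4096 * ∑ s ∈ (range (q + 1)).filter (fun s => 2 ≤ s.choose 2), g N q s) ≤
        15 * N.choose q := by
      refine le_trans ?_ hG3
      rw [← mul_assoc]
      refine Nat.mul_le_mul_right _ ?_
      nlinarith
    exact Nat.le_of_mul_le_mul_left h15 (by norm_num)
  have h3 := G2_le (N := N) (q := q)
  omega

end Pool.Agent.H30CG
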