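import Pool.Graph.R_seed8.Helper40.SecMom2

/-!
The potential of the clusters of overlapping winning sets.

A cluster consists of a winning set `A i` and of a nonempty family `J` of pairwise disjoint winning
sets different from `A i` each of which meets `A i`. Its weight is `4 ^ (|J| + 1)` times the weight
`2 ^ (- number of missing points)` of the union.
-/

set_option autoImplicit false
set_option linter.unusedSectionVars false

namespace Pool.Agent.H30CG

open Finset Pool.Agent.Helper40.Game Pool.Agent.Helper40.SM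

variable {β : Type*} [DecidableEq β] {K : Type*} [DecidableEq K]

/-- the winning sets different from `A i` that meet `A i` -/
def nb (F : Finset K) (A : K → Finset β) (i : K) : Finset K :=
  F.filter (fun j => j ≠ i ∧ ¬ Disjoint (A i) (A j))

open Classical in
/-- the clusters around `A i` -/
noncomputable def cl (F : Finset K) (A : K → Finset β) (i : K) : Finset (Finset K) :=
  (nb F A i).powerset.filter (fun J => J.Nonempty ∧ (J : Set K).PairwiseDisjoint A)

/-- the union of a cluster -/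
def UU (A : K → Finset β) (i : K) (J : Finset K) : Finset β := A i ∪ J.biUnion A

/-- the potential -/
noncomputable def Phi (F : Finset K) (A : K → Finset β) (M B : Finset β) : ℝ :=
  ∑ i ∈ F, ∑ J ∈ cl F A i, (4 : ℝ) ^ (J.card + 1) * wd (UU A i J) M B

lemma mem_cl {F : Finset K} {A : K → Finset β} {i : K} {J : Finset K} :
    J ∈ cl F A i ↔ (∀ j ∈ J, j ∈ F ∧ j ≠ i ∧ ¬ Disjoint (A i) (A j)) ∧ J.Nonempty ∧
      (J : Set K).PairwiseDisjoint A := by
  classical
  unfold cl nb
  rw [mem_filter, mem_powerset]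
  refine and_congr_left (fun _ => ?_)
  constructor
  · intro h j hj
    have := h hj
    rwa [mem_filter] at this
  · intro h j hj
    rw [mem_filter]
    exact h j hj

lemma Phi_nonneg (F : Finset K) (A : K → Finset β) (M B : Finset β) : 0 ≤ Phi F A M B := by
  unfold Phi
  exact Finset.sum_nonneg (fun i _ => Finset.sum_nonneg (fun J _ =>
    mul_nonneg (by positivity) (wd_nonneg _ _ _)))

lemma Phi_ge {F : Finset K} {A : K → Finset β} {M B : Finset β} {i : K} (hi : i ∈ F)
    {J : Finset K} (hJ : J ∈ cl F A i) :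
    (4 : ℝ) ^ (J.card + 1) * wd (UU A i J) M B ≤ Phi F A M B := by
  unfold Phi
  have h1 : (4 : ℝ) ^ (J.card + 1) * wd (UU A i J) M B ≤
      ∑ J ∈ cl F A i, (4 : ℝ) ^ (J.card + 1) * wd (UU A i J) M B :=
    Finset.single_le_sum (f := fun J => (4 : ℝ) ^ (J.card + 1) * wd (UU A i J) M B)
      (fun J _ => mul_nonneg (by positivity) (wd_nonneg _ _ _)) hJ
  refine h1.trans ?_
  exact Finset.single_le_sum
    (f := fun i => ∑ J ∈ cl F A i, (4 : ℝ) ^ (J.card + 1) * wd (UU A i J) M B)
    (fun i _ => Finset.sum_nonneg (fun J _ => mul_nonneg (by positivity) (wd_nonneg _ _ _))) hi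

/-- a term of the potential whose union has few missing points -/
lemma Phi_ge_of {F : Finset K} {A : K → Finset β} {M B : Finset β} {i : K} (hi : i ∈ F)
    {J : Finset K} (hJ : J ∈ cl F A i) (hB : Disjoint (UU A i J) B)
    (hc : (UU A i J \ M).card ≤ 2 * J.card + 2) : 1 ≤ Phi F A M B := by
  refine le_trans ?_ (Phi_ge (M := M) (B := B) hi hJ)
  unfold wd
  rw [if_pos hB]
  have h1 : (1 / 2 : ℝ) ^ (2 * J.card + 2) ≤ (1 / 2 : ℝ) ^ (UU A i J \ M).card :=
    pow_le_pow_of_le_one (by norm_num) (by norm_num) hc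
  have h2 : (4 : ℝ) ^ (J.card + 1) * (1 / 2 : ℝ) ^ (2 * J.card + 2) = 1 := by
    rw [show 2 * J.card + 2 = 2 * (J.card + 1) by ring, pow_mul, ← mul_pow]
    norm_num
  calc (1 : ℝ) = (4 : ℝ) ^ (J.card + 1) * (1 / 2 : ℝ) ^ (2 * J.card + 2) := h2.symm
    _ ≤ _ := mul_le_mul_of_nonneg_left h1 (by positivity)

lemma Phi_harm (F : Finset K) (A : K → Finset β) : Harm (Phi F A) := by
  intro M B x hM hB
  unfold Phi
  rw [← Finset.sum_add_distrib, Finset.mul_sum]
  refine Finset.sum_congr rfl (fun i _ => ?_)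
  rw [← Finset.sum_add_distrib, Finset.mul_sum]
  refine Finset.sum_congr rfl (fun J _ => ?_)
  have h := wd_harm (UU A i J) M B x hM hB
  linear_combination (4 : ℝ) ^ (J.card + 1) * h

lemma Phi_D2 (F : Finset K) (A : K → Finset β) {M B : Finset β} {x y : β} (hxy : x ≠ y)
    (hx : x ∉ M) (hy : y ∉ M) : 0 ≤ D2 (Phi F A) M B x y := by
  have e : D2 (Phi F A) M B x y =
      ∑ i ∈ F, ∑ J ∈ cl F A i, (4 : ℝ) ^ (J.card + 1) * D2 (wd (UU A i J)) M B x y := by
    unfold D2 Phi
    simp only [← Finset.sum_sub_distrib, ← Finset.sum_add_distrib, mul_sub, mul_add]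
  rw [e]
  refine Finset.sum_nonneg (fun i _ => Finset.sum_nonneg (fun J _ => ?_))
  rw [wd_D2 hxy hx hy]
  have := wd_nonneg (UU A i J) M B
  split_ifs
  · positivity
  · simp

/-- the negative of the potential -/
noncomputable def LP (F : Finset K) (A : K → Finset β) (M B : Finset β) : ℝ := - Phi F A M B

lemma LP_harm (F : Finset K) (A : K → Finset β) : Harm (LP F A) := by
  intro M B x hM hB
  have h := Phi_harm F A M B x hM hB
  unfold LP
  linarith

lemma LP_D2 (F : Finset K) (A : K → Finset β) {M B : Finset β} {x y : β} (hxy : x ≠ y)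
    (hx : x ∉ M) (hy : y ∉ M) : D2 (LP F A) M B x y ≤ 0 := by
  have h := Phi_D2 F A (B := B) hxy hx hy
  unfold D2 at h
  unfold D2 LP
  linarith

lemma Phi_insert_M_le (F : Finset K) (A : K → Finset β) {M B : Finset β} {x : β}
    (hM : x ∉ M) (hB : x ∉ B) : Phi F A (insert x M) B ≤ 2 * Phi F A M B := by
  have h := Phi_harm F A M B x hM hB
  have := Phi_nonneg F A M (insert x B)
  linarith

lemma Phi_insert_B_le (F : Finset K) (A : K → Finset β) {M B : Finset β} {x : β} :
    Phi F A M (insert x B) ≤ Phi F A M B := by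
  unfold Phi
  refine Finset.sum_le_sum (fun i _ => Finset.sum_le_sum (fun J _ => ?_))
  refine mul_le_mul_of_nonneg_left ?_ (by positivity)
  rw [wd_insert_B]
  have := wd_nonneg (UU A i J) M B
  split_ifs <;> linarith

/-- a round in which the owner of `M` moves first, with a move of least danger -/
lemma round_first {F : Finset K} {A : K → Finset β} {M B : Finset β} {x y : β} (hxy : x ≠ y)
    (hxM : x ∉ M) (hyM : y ∉ M) (hyB : y ∉ B)
    (hmin : Phi F A (insert x M) B ≤ Phi F A (insert y M) B) :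
    Phi F A (insert x M) (insert y B) ≤ Phi F A M B := by
  have h := round_M (LP_harm F A) (M := M) (B := B) hxy hyM hyB (by unfold LP; linarith)
  have h2 := LP_D2 F A (B := B) hxy hxM hyM
  unfold LP at h
  unfold LP at h2
  linarith

/-- a round in which the owner of `B` moves first, with a move of greatest danger -/
lemma round_second {F : Finset K} {A : K → Finset β} {M B : Finset β} {x y : β} (hxy : x ≠ y)
    (hxM : x ∉ M) (hxB : x ∉ B) (hyM : y ∉ M) (hyB : y ∉ B)
    (hmin : Phi F A M (insert x B) ≤ Phi F A M (insert y B)) :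
    Phi F A (insert y M) (insert x B) ≤ Phi F A M B := by
  have h := round_B (LP_harm F A) (M := M) (B := B) hxy hxM hxB hyM hyB (by unfold LP; linarith)
  have h2 := LP_D2 F A (B := B) hxy hxM hyM
  unfold LP at h
  unfold LP at h2
  linarith

/-! ### The initial value -/

lemma card_UU_sdiff {A : K → Finset β} {i : K} {J : Finset K}
    (hJ : (J : Set K).PairwiseDisjoint A) :
    (UU A i J).card = (A i).card + ∑ j ∈ J, (A j \ A i).card := by
  have h1 : UU A i J = A i ∪ J.biUnion (fun j => A j \ A i) := by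
    ext x
    simp only [UU, mem_union, mem_biUnion, mem_sdiff]
    by_cases hx : x ∈ A i
    · simp [hx]
    · simp [hx]
  rw [h1, card_union_of_disjoint, card_biUnion]
  · intro a ha b hb hab
    exact (hJ ha hb hab).mono sdiff_subset sdiff_subset
  · rw [Finset.disjoint_biUnion_right]
    intro j _
    exact Finset.disjoint_sdiff

/-- the bound of the initial value of the potential -/
theorem Phi_init_le (F : Finset K) (A : K → Finset β)
    (hW : ∀ i ∈ F, ∑ j ∈ nb F A i, 4 * (1 / 2 : ℝ) ^ (A j \ A i).card ≤ 1) :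
    Phi F A ∅ ∅ ≤ 32 * ∑ i ∈ F, ∑ j ∈ nb F A i, (1 / 2 : ℝ) ^ (A i ∪ A j).card := by
  unfold Phi
  rw [Finset.mul_sum]
  refine Finset.sum_le_sum (fun i hi => ?_)
  set a : K → ℝ := fun j => 4 * (1 / 2 : ℝ) ^ (A j \ A i).card with ha
  have ha0 : ∀ j, 0 ≤ a j := fun j => by rw [ha]; positivity
  have h1 : ∑ J ∈ cl F A i, (4 : ℝ) ^ (J.card + 1) * wd (UU A i J) ∅ ∅ =
      4 * (1 / 2 : ℝ) ^ (A i).card * ∑ J ∈ cl F A i, ∏ j ∈ J, a j := by
    rw [Finset.mul_sum]
    refine Finset.sum_congr rfl (fun J hJ => ?_)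
    rw [mem_cl] at hJ
    rw [wd_empty, card_UU_sdiff hJ.2.2, pow_add (1 / 2 : ℝ), pow_succ (4 : ℝ),
      ← Finset.prod_pow_eq_pow_sum]
    rw [ha]
    simp only
    rw [Finset.prod_mul_distrib, Finset.prod_const]
    ring
  have h2 : ∑ J ∈ cl F A i, ∏ j ∈ J, a j ≤ (∏ j ∈ nb F A i, (1 + a j)) - 1 := by
    have e : ∏ j ∈ nb F A i, (1 + a j) = ∑ J ∈ (nb F A i).powerset, ∏ j ∈ J, a j := by
      rw [Finset.prod_one_add]
    have e2 : ∑ J ∈ (nb F A i).powerset, ∏ j ∈ J, a j =
        ∏ j ∈ (∅ : Finset K), a j + ∑ J ∈ (nb F A i).powerset.erase ∅, ∏ j ∈ J, a j := by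
      exact (Finset.add_sum_erase _ (fun J => ∏ j ∈ J, a j) (Finset.empty_mem_powerset _)).symm
    rw [e, e2, Finset.prod_empty]
    have e3 : ∑ J ∈ cl F A i, ∏ j ∈ J, a j ≤ ∑ J ∈ (nb F A i).powerset.erase ∅, ∏ j ∈ J, a j := by
      refine Finset.sum_le_sum_of_subset_of_nonneg ?_
        (fun J _ _ => Finset.prod_nonneg (fun j _ => ha0 j))
      intro J hJ
      classical
      unfold cl at hJ
      rw [mem_filter] at hJ
      rw [mem_erase]
      exact ⟨hJ.2.1.ne_empty, hJ.1⟩
    linarith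
  have h3 : ∏ j ∈ nb F A i, (1 + a j) ≤ Real.exp (∑ j ∈ nb F A i, a j) := by
    rw [Real.exp_sum]
    refine Finset.prod_le_prod (fun j _ => by have := ha0 j; linarith) (fun j _ => ?_)
    have := Real.add_one_le_exp (a j)
    linarith
  have hs0 : 0 ≤ ∑ j ∈ nb F A i, a j := Finset.sum_nonneg (fun j _ => ha0 j)
  have h4 : Real.exp (∑ j ∈ nb F A i, a j) - 1 ≤ 2 * ∑ j ∈ nb F A i, a j := by
    have h := Real.abs_exp_sub_one_le (x := ∑ j ∈ nb F A i, a j)
      (by rw [abs_of_nonneg hs0]; exact hW i hi)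
    rw [abs_of_nonneg hs0] at h
    exact (le_abs_self _).trans h
  rw [h1]
  have h5 : ∑ J ∈ cl F A i, ∏ j ∈ J, a j ≤ 2 * ∑ j ∈ nb F A i, a j := by linarith
  calc 4 * (1 / 2 : ℝ) ^ (A i).card * ∑ J ∈ cl F A i, ∏ j ∈ J, a j
      ≤ 4 * (1 / 2 : ℝ) ^ (A i).card * (2 * ∑ j ∈ nb F A i, a j) :=
        mul_le_mul_of_nonneg_left h5 (by positivity)
    _ = 32 * ∑ j ∈ nb F A i, (1 / 2 : ℝ) ^ (A i ∪ A j).card := by
        rw [Finset.mul_sum, Finset.mul_sum, Finset.mul_sum]
        refine Finset.sum_congr rfl (fun j _ => ?_)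
        have e : (A i ∪ A j).card = (A i).card + (A j \ A i).card := by
          rw [← Finset.union_sdiff_self_eq_union, card_union_of_disjoint Finset.disjoint_sdiff]
        rw [e, pow_add, ha]
        ring

end Pool.Agent.H30CG
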